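import Pool.Agent.N142.CD.CS
import Pool.Agent.N142.CD.MOM

/-!
# The Croot-Sisask argument on a restricted domain
-/

set_option autoImplicit false

namespace Pool.Agent.U546.TS

open Finset Pool.Agent.N142.CD
open scoped Pointwise

variable {N : ℕ} [NeZero N]

theorem double (A W : Finset (ZMod N)) (k : ℕ) (L : Finset (Fin k → ZMod N))
    (hA : A.Nonempty) (hW : W.Nonempty) (hL : L ⊆ Fintype.piFinset (fun _ : Fin k => A)) :
    ∃ z : Fin k → ZMod N, ((W.card : ℝ) * L.card) ≤
      (A + W).card ^ k * (W.filter (fun s => (fun i => z i - s) ∈ L)).card := by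
  classical
  set Z := Fintype.piFinset (fun _ : Fin k => A + W) with hZ
  have hZc : Z.card = (A + W).card ^ k := by
    rw [hZ, Fintype.card_piFinset_const]
  have hZne : Z.Nonempty := by
    rw [hZ, Fintype.piFinset_nonempty]
    intro i
    exact hA.add hW
  have hcount : W.card * L.card ≤ ∑ z ∈ Z, (W.filter (fun s => (fun i => z i - s) ∈ L)).card := by
    have h1 : ∑ z ∈ Z, (W.filter (fun s => (fun i => z i - s) ∈ L)).card =
        ∑ s ∈ W, (Z.filter (fun z => (fun i => z i - s) ∈ L)).card := by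
      simp only [Finset.card_filter]
      exact Finset.sum_comm
    rw [h1]
    calc W.card * L.card = ∑ s ∈ W, L.card := by rw [Finset.sum_const, smul_eq_mul]
      _ ≤ ∑ s ∈ W, (Z.filter (fun z => (fun i => z i - s) ∈ L)).card := by
        refine Finset.sum_le_sum fun s hs => ?_
        refine Finset.card_le_card_of_injOn (fun a i => a i + s) ?_ ?_
        · intro a ha
          have ha' : a ∈ L := ha
          simp only [Finset.coe_filter, Set.mem_setOf_eq]
          refine ⟨?_, ?_⟩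
          · rw [hZ, Fintype.mem_piFinset]
            intro i
            exact Finset.add_mem_add (Fintype.mem_piFinset.1 (hL ha') i) hs
          · have : (fun i => a i + s - s) = a := by funext i; ring
            rw [this]
            exact ha'
        · intro a _ b _ hab
          funext i
          have := congrFun hab i
          simpa using this
  by_contra hcon
  push Not at hcon
  have h2 : ∑ z ∈ Z, (((A + W).card ^ k : ℕ) : ℝ) * ((W.filter (fun s => (fun i => z i - s) ∈ L)).card : ℝ) <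
      ∑ z ∈ Z, ((W.card : ℝ) * L.card) := by
    refine Finset.sum_lt_sum_of_nonempty hZne fun z _ => ?_
    have := hcon z
    push_cast
    exact this
  rw [← Finset.mul_sum, Finset.sum_const, nsmul_eq_mul, hZc] at h2
  have hpos : (0 : ℝ) < (((A + W).card ^ k : ℕ) : ℝ) := by
    rw [← hZc]
    exact_mod_cast Finset.card_pos.2 hZne
  have h3 := lt_of_mul_lt_mul_left h2 hpos.le
  have h4 : ((W.card * L.card : ℕ) : ℝ) ≤
      ((∑ z ∈ Z, (W.filter (fun s => (fun i => z i - s) ∈ L)).card : ℕ) : ℝ) := by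
    exact_mod_cast hcount
  push_cast at h4
  linarith

theorem sum_shift (Ω : Finset (ZMod N)) (s : ZMod N) (h : ZMod N → ℝ) :
    ∑ x ∈ univ.filter (fun x => x + s ∈ Ω), h (x + s) = ∑ y ∈ Ω, h y := by
  rw [sum_filter]
  have h1 := Equiv.sum_comp (Equiv.addRight s) (fun y => if y ∈ Ω then h y else 0)
  simp only [Equiv.coe_addRight] at h1
  rw [h1, sum_ite_mem, univ_inter]

/-- **The Croot-Sisask argument** with the domain `Ω` and the shifts in `W` -/
theorem cs (A W S Ω : Finset (ZMod N)) (K : ℝ) (k m : ℕ) (hA : A.Nonempty) (hW : W.Nonempty)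
    (hK : ((A + W).card : ℝ) ≤ K * A.card) (hk : 1 ≤ k) (hm : 1 ≤ m) :
    ∃ T : Finset (ZMod N), T ⊆ W ∧ (W.card : ℝ) ≤ 2 * K ^ k * T.card ∧
      ∀ s ∈ T, ∀ s' ∈ T, ∑ x ∈ univ.filter (fun x => x + s ∈ Ω ∧ x + s' ∈ Ω),
        (Fn A S (x + s) - Fn A S (x + s')) ^ (2 * m) ≤
          2 ^ (2 * m) * (2 * (Ω.card * (6 * m / k : ℝ) ^ m)) := by
  classical
  set M : ℝ := Ω.card * (6 * m / k : ℝ) ^ m with hMdef
  have hM : 0 ≤ M := by positivity
  set P := Fintype.piFinset (fun _ : Fin k => A) with hP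
  set E : (Fin k → ZMod N) → ℝ := fun a => ∑ x ∈ Ω, (CS.Fa S a x - Fn A S x) ^ (2 * m) with hE
  have hev : Even (2 * m) := even_two_mul m
  have hEnn : ∀ a ∈ P, 0 ≤ E a := fun a _ =>
    Finset.sum_nonneg fun x _ => hev.pow_nonneg _
  have hPc : (P.card : ℝ) = (A.card : ℝ) ^ k := by
    rw [hP, Fintype.card_piFinset_const]
    push_cast
    rfl
  have hsum : ∑ a ∈ P, E a ≤ P.card * M := by
    rw [hPc, hE]
    simp only
    rw [Finset.sum_comm]
    calc ∑ x ∈ Ω, ∑ a ∈ P, (CS.Fa S a x - Fn A S x) ^ (2 * m)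
        ≤ ∑ x ∈ Ω, (A.card : ℝ) ^ k * (6 * m / k : ℝ) ^ m :=
          Finset.sum_le_sum fun x _ => CS.step1 t_MOM A S k m hA hk hm x
      _ = (A.card : ℝ) ^ k * M := by
          rw [Finset.sum_const, nsmul_eq_mul, hMdef]; ring
  have hmk := CS.markov P E M hM hEnn hsum
  set L := P.filter (fun a => E a ≤ 2 * M) with hL
  obtain ⟨z, hz⟩ := double A W k L hA hW (Finset.filter_subset _ _)
  refine ⟨W.filter (fun s => (fun i => z i - s) ∈ L), Finset.filter_subset _ _, ?_, ?_⟩
  · have hAc : (0 : ℝ) < A.card := by exact_mod_cast hA.card_pos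
    have hWc : (0 : ℝ) < W.card := by exact_mod_cast hW.card_pos
    have hAk : (0 : ℝ) < (A.card : ℝ) ^ k := by positivity
    have h1 : ((A + W).card : ℝ) ^ k ≤ K ^ k * (A.card : ℝ) ^ k := by
      rw [← mul_pow]
      exact pow_le_pow_left₀ (by positivity) hK k
    have h2 : (W.card : ℝ) * (A.card : ℝ) ^ k ≤
        (2 * K ^ k * (W.filter (fun s => (fun i => z i - s) ∈ L)).card) * (A.card : ℝ) ^ k := by
      calc (W.card : ℝ) * (A.card : ℝ) ^ k = W.card * P.card := by rw [hPc]
        _ ≤ W.card * (2 * L.card) := mul_le_mul_of_nonneg_left hmk hWc.le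
        _ = 2 * (W.card * L.card) := by ring
        _ ≤ 2 * ((A + W).card ^ k * (W.filter (fun s => (fun i => z i - s) ∈ L)).card) := by
            linarith
        _ ≤ 2 * ((K ^ k * (A.card : ℝ) ^ k) *
              (W.filter (fun s => (fun i => z i - s) ∈ L)).card) := by
            have := mul_le_mul_of_nonneg_right h1
              (Nat.cast_nonneg (α := ℝ) (W.filter (fun s => (fun i => z i - s) ∈ L)).card)
            linarith
        _ = _ := by ring
    exact le_of_mul_le_mul_right h2 hAk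
  · have key : ∀ s ∈ W.filter (fun s => (fun i => z i - s) ∈ L),
        ∑ x ∈ univ.filter (fun x => x + s ∈ Ω), (CS.Fa S z x - Fn A S (x + s)) ^ (2 * m) ≤ 2 * M := by
      intro s hs
      have h1 := (Finset.mem_filter.1 (Finset.mem_filter.1 hs).2).2
      have h2 : E (fun i => z i - s) =
          ∑ x ∈ univ.filter (fun x => x + s ∈ Ω), (CS.Fa S z x - Fn A S (x + s)) ^ (2 * m) := by
        rw [hE]
        simp only
        rw [← sum_shift Ω s (fun y => (CS.Fa S (fun i => z i - s) y - Fn A S y) ^ (2 * m))]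
        refine Finset.sum_congr rfl fun x _ => ?_
        rw [CS.Fa_shift]
      rw [← h2]
      exact h1
    intro s hs s' hs'
    have h1 := key s hs
    have h2 := key s' hs'
    obtain ⟨Q, hQ⟩ : ∃ Q : Finset (ZMod N), Q = univ.filter (fun x => x + s ∈ Ω ∧ x + s' ∈ Ω) := ⟨_, rfl⟩
    rw [← hQ]
    have h1' : ∑ x ∈ Q, (CS.Fa S z x - Fn A S (x + s)) ^ (2 * m) ≤ 2 * M := by
      refine le_trans (sum_le_sum_of_subset_of_nonneg ?_ fun _ _ _ => hev.pow_nonneg _) h1
      intro x hx
      rw [hQ, mem_filter] at hx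
      rw [mem_filter]
      exact ⟨hx.1, hx.2.1⟩
    have h2' : ∑ x ∈ Q, (CS.Fa S z x - Fn A S (x + s')) ^ (2 * m) ≤ 2 * M := by
      refine le_trans (sum_le_sum_of_subset_of_nonneg ?_ fun _ _ _ => hev.pow_nonneg _) h2
      intro x hx
      rw [hQ, mem_filter] at hx
      rw [mem_filter]
      exact ⟨hx.1, hx.2.2⟩
    have h3 : ∑ x ∈ Q, (Fn A S (x + s) - Fn A S (x + s')) ^ (2 * m) ≤
        ∑ x ∈ Q, 2 ^ (2 * m - 1) * ((CS.Fa S z x - Fn A S (x + s)) ^ (2 * m) +
          (CS.Fa S z x - Fn A S (x + s')) ^ (2 * m)) := by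
      refine Finset.sum_le_sum fun x _ => ?_
      have h4 := CS.pow_add_le (-(CS.Fa S z x - Fn A S (x + s))) (CS.Fa S z x - Fn A S (x + s')) m hm
      have h5 : -(CS.Fa S z x - Fn A S (x + s)) + (CS.Fa S z x - Fn A S (x + s')) =
          Fn A S (x + s) - Fn A S (x + s') := by ring
      rw [h5, Even.neg_pow hev] at h4
      exact h4
    rw [← Finset.mul_sum, Finset.sum_add_distrib] at h3
    have h6 : (2 : ℝ) ^ (2 * m) = 2 ^ (2 * m - 1) * 2 := by
      rw [← pow_succ]
      congr 1
      omega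
    calc ∑ x ∈ Q, (Fn A S (x + s) - Fn A S (x + s')) ^ (2 * m)
        ≤ 2 ^ (2 * m - 1) * (∑ x ∈ Q, (CS.Fa S z x - Fn A S (x + s)) ^ (2 * m) +
          ∑ x ∈ Q, (CS.Fa S z x - Fn A S (x + s')) ^ (2 * m)) := h3
      _ ≤ 2 ^ (2 * m - 1) * (2 * M + 2 * M) :=
          mul_le_mul_of_nonneg_left (by linarith) (by positivity)
      _ = 2 ^ (2 * m) * (2 * M) := by rw [h6]; ring

end Pool.Agent.U546.TS
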