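import Pool.Agent.U546.TS.Per
import Pool.Agent.U546.TS.CS

/-!
# Almost periodicity of the smoothed count
-/

set_option autoImplicit false

namespace Pool.Agent.U546.TS

open Finset Pool.Agent.N142.CD
open scoped Pointwise

variable {N : ℕ} [NeZero N]

/-- the mean of `F(x + y)` over `x ∈ A₀` -/
noncomputable def gn2 (A₀ A S : Finset (ZMod N)) (y : ZMod N) : ℝ :=
  (∑ x ∈ A₀, Fn A S (x + y)) / A₀.card

omit [NeZero N] in
theorem Fn_nonneg (A S : Finset (ZMod N)) (x : ZMod N) : 0 ≤ Fn A S x := by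
  unfold Fn
  apply div_nonneg _ (Nat.cast_nonneg _)
  exact sum_nonneg fun a _ => by split_ifs <;> norm_num

omit [NeZero N] in
theorem Fn_le_one (A S : Finset (ZMod N)) (x : ZMod N) : Fn A S x ≤ 1 := by
  unfold Fn
  refine div_le_one_of_le₀ ?_ (Nat.cast_nonneg _)
  calc ∑ a ∈ A, (if x + a ∈ S then (1 : ℝ) else 0) ≤ ∑ a ∈ A, (1 : ℝ) :=
        sum_le_sum fun a _ => by split_ifs <;> norm_num
    _ = A.card := by simp

theorem ap (A₀ A B S : Finset (ZMod N)) (δ τ e : ℝ) (k m : ℕ) (hm : 1 ≤ m) (hA₀ : A₀.Nonempty)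
    (hAB : A₀ ⊆ B) (hδ : 0 < δ) (hδB : δ * B.card ≤ A₀.card) (he : 0 ≤ e) (hτ : 0 ≤ τ)
    (hbound : 2 ^ (2 * m) * (2 * (6 * m / k : ℝ) ^ m) ≤ δ * e ^ (2 * m)) (s s' y : ZMod N)
    (hs : ∑ x ∈ univ.filter (fun x => x + s ∈ B ∧ x + s' ∈ B),
        (Fn A S (x + s) - Fn A S (x + s')) ^ (2 * m) ≤ 2 ^ (2 * m) * (2 * (B.card * (6 * m / k : ℝ) ^ m)))
    (hy : y ∈ PP B τ) (hy' : y + s - s' ∈ PP B τ) :
    |gn2 A₀ A S (y + s - s') - gn2 A₀ A S y| ≤ 2 * τ / δ + e := by
  classical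
  have hA0 : (0 : ℝ) < A₀.card := by exact_mod_cast hA₀.card_pos
  have hev : Even (2 * m) := even_two_mul m
  rw [mem_PP] at hy hy'
  obtain ⟨y', hy''⟩ : ∃ y', y' = y + s - s' := ⟨_, rfl⟩
  rw [← hy''] at hy' ⊢
  obtain ⟨G, hG⟩ : ∃ G : Finset (ZMod N), G = A₀.filter fun x => x + y ∈ B ∧ x + y' ∈ B := ⟨_, rfl⟩
  have hGA : G ⊆ A₀ := by rw [hG]; exact filter_subset _ _
  -- the bad points
  have hbad : ((A₀ \ G).card : ℝ) ≤ 2 * τ * B.card := by
    have h1 : A₀ \ G ⊆ (B.filter fun b => b + y ∉ B) ∪ (B.filter fun b => b + y' ∉ B) := by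
      intro x hx
      rw [mem_sdiff, hG, mem_filter] at hx
      rw [mem_union, mem_filter, mem_filter]
      by_contra hcon
      push Not at hcon
      exact hx.2 ⟨hx.1, hcon.1 (hAB hx.1), hcon.2 (hAB hx.1)⟩
    have h2 : (A₀ \ G).card ≤ dst B y + dst B y' := (card_le_card h1).trans (card_union_le _ _)
    have h3 : ((A₀ \ G).card : ℝ) ≤ dst B y + dst B y' := by exact_mod_cast h2
    linarith
  obtain ⟨f, hf⟩ : ∃ f : ZMod N → ℝ, f = fun x => Fn A S (x + y') - Fn A S (x + y) := ⟨_, rfl⟩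
  have hf1 : ∀ x, |f x| ≤ 1 := by
    intro x
    rw [hf, abs_le]
    have h1 := Fn_nonneg A S (x + y')
    have h2 := Fn_nonneg A S (x + y)
    have h3 := Fn_le_one A S (x + y')
    have h4 := Fn_le_one A S (x + y)
    constructor <;> simp only <;> linarith
  have e1 : gn2 A₀ A S y' - gn2 A₀ A S y = (∑ x ∈ A₀, f x) / A₀.card := by
    unfold gn2
    rw [← sub_div, ← sum_sub_distrib, hf]
  have e2 : ∑ x ∈ A₀, f x = ∑ x ∈ A₀ \ G, f x + ∑ x ∈ G, f x := (sum_sdiff hGA).symm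
  have e3 : |∑ x ∈ A₀ \ G, f x| ≤ 2 * τ * B.card := by
    calc |∑ x ∈ A₀ \ G, f x| ≤ ∑ x ∈ A₀ \ G, |f x| := abs_sum_le_sum_abs _ _
      _ ≤ ∑ x ∈ A₀ \ G, (1 : ℝ) := sum_le_sum fun x _ => hf1 x
      _ = (A₀ \ G).card := by simp
      _ ≤ _ := hbad
  -- the good points
  have e4 : |∑ x ∈ G, f x| ≤ e * A₀.card := by
    obtain ⟨h, hh⟩ : ∃ h : ZMod N → ℝ, h = fun x => if x ∈ G then f x else 0 := ⟨_, rfl⟩
    have h1 : ∑ x ∈ A₀, (1 / (A₀.card : ℝ)) * h x = (∑ x ∈ G, f x) / A₀.card := by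
      rw [← mul_sum, one_div, inv_mul_eq_div]
      congr 1
      rw [hh, sum_ite_mem, inter_eq_right.2 hGA]
    have h2 := Real.pow_arith_mean_le_arith_mean_pow_of_even A₀ (fun _ => 1 / (A₀.card : ℝ)) h
      (fun _ _ => by positivity) (by rw [sum_const, nsmul_eq_mul]; field_simp) (n := 2 * m) hev
    rw [h1] at h2
    have h3 : ∑ x ∈ A₀, (1 / (A₀.card : ℝ)) * h x ^ (2 * m) = (∑ x ∈ G, f x ^ (2 * m)) / A₀.card := by
      rw [← mul_sum, one_div, inv_mul_eq_div]
      congr 1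
      have : ∀ x, h x ^ (2 * m) = if x ∈ G then f x ^ (2 * m) else 0 := by
        intro x
        rw [hh]
        simp only
        split_ifs
        · rfl
        · exact zero_pow (by omega)
      rw [sum_congr rfl fun x _ => this x, sum_ite_mem, inter_eq_right.2 hGA]
    rw [h3] at h2
    have h4 : ∑ x ∈ G, f x ^ (2 * m) ≤ 2 ^ (2 * m) * (2 * (B.card * (6 * m / k : ℝ) ^ m)) := by
      refine le_trans ?_ hs
      have hinj : Set.InjOn (fun x : ZMod N => x + (y - s')) (G : Set (ZMod N)) := by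
        intro a _ b _ hab
        simpa using hab
      have h5 : ∑ x ∈ G, f x ^ (2 * m) = ∑ z ∈ G.image (fun x : ZMod N => x + (y - s')),
          (Fn A S (z + s) - Fn A S (z + s')) ^ (2 * m) := by
        rw [sum_image (f := fun z => (Fn A S (z + s) - Fn A S (z + s')) ^ (2 * m)) hinj]
        refine sum_congr rfl fun x _ => ?_
        rw [hf, hy'']
        simp only
        have q1 : x + (y - s') + s = x + (y + s - s') := by ring
        have q2 : x + (y - s') + s' = x + y := by ring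
        rw [q1, q2]
      rw [h5]
      refine sum_le_sum_of_subset_of_nonneg ?_ fun z _ _ => hev.pow_nonneg _
      intro z hz
      obtain ⟨x, hx, rfl⟩ := mem_image.1 hz
      rw [hG, mem_filter] at hx
      rw [mem_filter]
      refine ⟨mem_univ _, ?_, ?_⟩
      · have : x + (y - s') + s = x + y' := by rw [hy'']; ring
        rw [this]
        exact hx.2.2
      · have : x + (y - s') + s' = x + y := by ring
        rw [this]
        exact hx.2.1
    have h6 : ((∑ x ∈ G, f x) / A₀.card) ^ (2 * m) ≤ e ^ (2 * m) := by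
      refine h2.trans ?_
      rw [div_le_iff₀ hA0]
      refine h4.trans ?_
      calc (2 : ℝ) ^ (2 * m) * (2 * (B.card * (6 * m / k : ℝ) ^ m)) =
            B.card * (2 ^ (2 * m) * (2 * (6 * m / k : ℝ) ^ m)) := by ring
        _ ≤ B.card * (δ * e ^ (2 * m)) := mul_le_mul_of_nonneg_left hbound (Nat.cast_nonneg _)
        _ = e ^ (2 * m) * (δ * B.card) := by ring
        _ ≤ e ^ (2 * m) * A₀.card := mul_le_mul_of_nonneg_left hδB (by positivity)
    have h7 : |(∑ x ∈ G, f x) / A₀.card| ≤ e := by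
      by_contra hcon
      push Not at hcon
      have h8 := pow_lt_pow_left₀ hcon he (by omega : 2 * m ≠ 0)
      rw [hev.pow_abs] at h8
      exact absurd h6 (not_le.2 h8)
    rw [abs_div, abs_of_pos hA0, div_le_iff₀ hA0] at h7
    exact h7
  rw [e1, e2, abs_div, abs_of_pos hA0, div_le_iff₀ hA0]
  have h9 : 2 * τ * B.card ≤ 2 * τ / δ * A₀.card := by
    rw [div_mul_eq_mul_div, le_div_iff₀ hδ]
    have : 2 * τ * (δ * B.card) ≤ 2 * τ * A₀.card := mul_le_mul_of_nonneg_left hδB (by linarith)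
    linarith
  calc |∑ x ∈ A₀ \ G, f x + ∑ x ∈ G, f x| ≤ |∑ x ∈ A₀ \ G, f x| + |∑ x ∈ G, f x| := abs_add_le _ _
    _ ≤ 2 * τ / δ * A₀.card + e * A₀.card := by linarith
    _ = _ := by ring

end Pool.Agent.U546.TS
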