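import Pool.Agent.U546.TS.Per
import Pool.Agent.TH858.GP.Two
import Pool.Agent.N547.BG.SUM
import Pool.Agent.N91.BG.MOM
import Pool.Agent.N507.BG.PIG
import Pool.Agent.N80.BG.BIG
import Pool.Agent.N27.BG.Mul
import Pool.Agent.N342.BG.POL
import Pool.Agent.N674.BG.BOG
import Pool.Agent.N106.BG.IND
import Pool.Agent.N353.BG.MAX
import Pool.Agent.N700.BG.GEN
import Pool.Agent.N31.BG.REP
import Pool.Agent.N667.BG.CVX
import Pool.Agent.N933.BG.THM
import Pool.Agent.N173.BG.TRD

/-!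
# Characters with a large mean over the almost periods, and Bohr sets inside the almost periods
-/

set_option autoImplicit false

namespace Pool.Agent.U546.TS

open Finset Pool.Agent.TH858 Pool.Agent.N142.CD

variable {N : ℕ} [NeZero N]

/-- A character with a large mean over `P(s)` is almost constant on `P(g)` if `P(s + g)` is not much
larger than `P(s)`. -/
theorem spec_small (B : Finset (ZMod N)) (s g η : ℝ) (hs : 0 ≤ s) (hg : 0 ≤ g)
    (hreg : ((PP B (s + g)).card : ℝ) ≤ (1 + η) * (PP B s).card) (κ : ZMod N)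
    (hκ : ((PP B s).card : ℝ) / 2 ≤ ‖∑ x ∈ PP B s, ψ (κ * x)‖) (x : ZMod N) (hx : x ∈ PP B g) :
    ‖ψ (κ * x) - 1‖ ≤ 4 * η := by
  classical
  obtain ⟨X, hX⟩ : ∃ X, X = PP B s := ⟨_, rfl⟩
  obtain ⟨Y, hY⟩ : ∃ Y, Y = PP B (s + g) := ⟨_, rfl⟩
  rw [← hX, ← hY] at hreg
  rw [← hX] at hκ
  have hXne : X.Nonempty := by rw [hX]; exact nonempty_PP B hs
  have hXc : (0 : ℝ) < X.card := by exact_mod_cast hXne.card_pos
  have hXY : X ⊆ Y := by rw [hX, hY]; exact mono_PP B (by linarith)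
  obtain ⟨X', hX'⟩ : ∃ X' : Finset (ZMod N), X' = X.filter fun y => y + x ∈ X := ⟨_, rfl⟩
  have hcnt : GP.cnt X x = X'.card := by
    unfold GP.cnt
    symm
    refine card_bij (fun y _ => (y, y + x)) ?_ ?_ ?_
    · intro y hy
      rw [hX', mem_filter] at hy
      rw [mem_filter, mem_product]
      refine ⟨⟨hy.1, hy.2⟩, ?_⟩
      change y - (y + x) + x = 0
      ring
    · intro y _ y' _ h
      exact (Prod.mk.inj h).1
    · rintro ⟨p, q⟩ hp
      rw [mem_filter, mem_product] at hp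
      have h1 : q = p + x := by
        have := hp.2
        change p - q + x = 0 at this
        linear_combination -this
      refine ⟨p, ?_, by rw [h1]⟩
      rw [hX', mem_filter]
      exact ⟨hp.1.1, by rw [← h1]; exact hp.1.2⟩
  have hsub : X' ⊆ X := by rw [hX']; exact filter_subset _ _
  have h1 : (X \ X').card ≤ (Y \ X).card := by
    refine card_le_card_of_injOn (fun y => y + x) ?_ ?_
    · intro y hy
      rw [mem_coe, mem_sdiff, hX', mem_filter] at hy
      rw [mem_coe, mem_sdiff]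
      refine ⟨?_, fun h => hy.2 ⟨hy.1, h⟩⟩
      rw [hY]
      have := hy.1
      rw [hX] at this
      exact add_mem_PP B _ _ _ _ this hx
    · intro a _ b _ h
      exact add_left_injective x h
  have h2 : ((X \ X').card : ℝ) ≤ Y.card - X.card := by
    have h3 : ((X \ X').card : ℝ) ≤ (Y \ X).card := by exact_mod_cast h1
    rw [card_sdiff_of_subset hXY, Nat.cast_sub (card_le_card hXY)] at h3
    exact h3
  have h4 : (X.card : ℝ) - GP.cnt X x = (X \ X').card := by
    rw [hcnt, card_sdiff_of_subset hsub, Nat.cast_sub (card_le_card hsub)]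
  have h5 := GP.shift X κ x
  rw [h4] at h5
  have h6 : (X.card : ℝ) / 2 * ‖ψ (κ * x) - 1‖ ≤ 2 * (η * X.card) := by
    refine le_trans (mul_le_mul_of_nonneg_right hκ (norm_nonneg _)) (h5.trans ?_)
    linarith
  have h7 : X.card * ‖ψ (κ * x) - 1‖ ≤ X.card * (4 * η) := by linarith
  exact le_of_mul_le_mul_left h7 hXc

theorem t_pol : Pool.Agent.N173.BG.S_POL := Pool.Agent.N342.BG.t_POL Pool.Agent.N547.BG.t_SUM
  (Pool.Agent.N507.BG.t_PIG Pool.Agent.N547.BG.t_SUM Pool.Agent.N547.BG.t_CARD)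
  (Pool.Agent.N80.BG.t_BIG Pool.Agent.N91.BG.t_MOM Pool.Agent.N547.BG.t_CARD) Pool.Agent.N27.BG.t_MUL

theorem t_thm : Pool.Agent.N173.BG.S_THM :=
  Pool.Agent.N933.BG.t_THM t_pol Pool.Agent.N674.BG.t_BOG Pool.Agent.N106.BG.t_IND
  Pool.Agent.N353.BG.t_MAX (Pool.Agent.N667.BG.t_CVX (Pool.Agent.N31.BG.t_REP Pool.Agent.N700.BG.t_GEN))

open Pool.Agent.N173.BG in
/-- A Bohr set in the iterated sums of a set `Q` of any density `≥ e ^ (-ℓ)`. -/
theorem bohrQ : ∃ C : ℝ, 1 ≤ C ∧ ∀ (N : ℕ) [NeZero N] (Q : Finset (ZMod N)) (ℓ R : ℝ) (K : ℕ), Q.Nonempty →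
    1 ≤ ℓ → (N : ℝ) ≤ Real.exp ℓ * Q.card → 1 ≤ R → C * ℓ ^ 7 * (ℓ + R) ^ 2 ≤ K →
    ∃ Γ : Finset (ZMod N), (Γ.card : ℝ) ≤ C * (1 + ℓ * (Real.log (2 + ℓ / R) / Real.log (2 + R))) ∧
      ∀ x : ZMod N, (∀ γ ∈ Γ, CB.nn (γ * x) ≤ 1 / (8 * R)) → x ∈ KK K Q := by
  obtain ⟨C, hC, h⟩ := t_TRD t_thm
  refine ⟨C + 1, by linarith, ?_⟩
  intro N _ Q ℓ R K hQ hℓ hN hR hK
  have hNpos : (0 : ℝ) < N := by exact_mod_cast NeZero.pos N
  have hQc : (0 : ℝ) < Q.card := by exact_mod_cast hQ.card_pos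
  have hlR : 0 < Real.log (2 + R) := Real.log_pos (by linarith)
  have hl2 : 0 < Real.log (2 + ℓ / R) := by
    apply Real.log_pos
    have : 0 ≤ ℓ / R := by positivity
    linarith
  have hrhs : 0 ≤ ℓ * (Real.log (2 + ℓ / R) / Real.log (2 + R)) := by positivity
  rcases le_or_gt ((Q.card : ℝ) / N) (1 / 2) with hd | hd
  · obtain ⟨ℓ', hℓ'⟩ : ∃ ℓ' : ℝ, ℓ' = Real.log (N / Q.card) := ⟨_, rfl⟩
    have hℓ'0 : 0 ≤ ℓ' := by
      rw [hℓ']
      apply Real.log_nonneg
      rw [le_div_iff₀ hQc]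
      rw [div_le_iff₀ hNpos] at hd
      linarith
    have hℓ'ℓ : ℓ' ≤ ℓ := by
      rw [hℓ', Real.log_le_iff_le_exp (by positivity), div_le_iff₀ hQc]
      exact hN
    obtain ⟨Γ, h1, h2⟩ := h N Q K R hQ hd hR (by
      rw [← hℓ']
      refine le_trans ?_ hK
      have : C * ℓ' ^ 7 * (ℓ' + R) ^ 2 ≤ C * ℓ ^ 7 * (ℓ + R) ^ 2 := by gcongr
      refine this.trans ?_
      have h3 : 0 ≤ ℓ ^ 7 * (ℓ + R) ^ 2 := by positivity
      nlinarith)
    refine ⟨Γ, h1.trans ?_, h2⟩
    rw [← hℓ']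
    have h4 : ℓ' * (Real.log (2 + ℓ' / R) / Real.log (2 + ℓ' + R)) ≤
        ℓ * (Real.log (2 + ℓ / R) / Real.log (2 + R)) := by
      have h5 : Real.log (2 + ℓ' / R) ≤ Real.log (2 + ℓ / R) := by
        apply Real.log_le_log
        · have : 0 ≤ ℓ' / R := by positivity
          linarith
        · gcongr
      have h6 : Real.log (2 + R) ≤ Real.log (2 + ℓ' + R) := Real.log_le_log (by linarith) (by linarith)
      have h7 : Real.log (2 + ℓ' / R) / Real.log (2 + ℓ' + R) ≤ Real.log (2 + ℓ / R) / Real.log (2 + R) := by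
        gcongr
      have h8 : 0 ≤ Real.log (2 + ℓ' / R) / Real.log (2 + ℓ' + R) := by
        apply div_nonneg
        · apply Real.log_nonneg
          have : 0 ≤ ℓ' / R := by positivity
          linarith
        · linarith
      exact mul_le_mul hℓ'ℓ h7 h8 (by linarith)
    nlinarith
  · refine ⟨∅, ?_, ?_⟩
    · rw [card_empty]
      push_cast
      positivity
    · intro x _
      classical
      -- `x = a - b` with `a, b ∈ Q`
      have hcard : N < Q.card + Q.card := by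
        rw [lt_div_iff₀ hNpos] at hd
        have : (N : ℝ) < ((Q.card + Q.card : ℕ) : ℝ) := by push_cast; linarith
        exact_mod_cast this
      have hex : ∃ b ∈ Q, b + x ∈ Q := by
        by_contra hcon
        push Not at hcon
        have hdis : Disjoint Q (Q.image fun b => b + x) := by
          rw [disjoint_left]
          intro a ha hb
          obtain ⟨b, hb1, hb2⟩ := mem_image.1 hb
          exact hcon b hb1 (by rw [hb2]; exact ha)
        have h1 := card_le_univ (Q ∪ Q.image fun b => b + x)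
        rw [card_union_of_disjoint hdis, card_image_of_injective _ (add_left_injective x), ZMod.card] at h1
        omega
      obtain ⟨b, hb, hbx⟩ := hex
      have hK1 : 0 < K := by
        have : (0 : ℝ) < K := by
          refine lt_of_lt_of_le ?_ hK
          positivity
        exact_mod_cast this
      obtain ⟨K', rfl⟩ : ∃ K', K = K' + 1 := ⟨K - 1, by omega⟩
      refine ⟨Fin.cons (b + x) fun _ => b, fun _ => b, ?_, fun _ => hb, ?_⟩
      · intro i
        refine Fin.cases ?_ (fun i => ?_) i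
        · rw [Fin.cons_zero]; exact hbx
        · rw [Fin.cons_succ]; exact hb
      · rw [Fin.sum_univ_succ, Fin.sum_univ_succ]
        simp

open Pool.Agent.N173.BG in
theorem KK_sub (B : Finset (ZMod N)) (K : ℕ) (τ : ℝ) (x : ZMod N) (hx : x ∈ KK K (PP B τ)) :
    x ∈ PP B (2 * K * τ) := by
  obtain ⟨a, b, ha, hb, rfl⟩ := hx
  have h1 := sum_mem_PP B τ K a ha
  have h2 := neg_mem_PP B _ _ (sum_mem_PP B τ K b hb)
  have h3 := add_mem_PP B _ _ _ _ h1 h2
  rw [← sub_eq_add_neg] at h3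
  have : (K : ℝ) * τ + K * τ = 2 * K * τ := by ring
  rw [this] at h3
  exact h3

end Pool.Agent.U546.TS
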