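import Pool.Agent.U546.TS.FOU
import Pool.Agent.U546.TS.Spec
import Pool.Agent.N142.CD.LCH
import Pool.Agent.N142.CD.RAD

/-!
# The combinatorial part
-/

set_option autoImplicit false

namespace Pool.Agent.U546.TS

open Finset Pool.Agent.TH858 Pool.Agent.N142.CD
open scoped Pointwise

variable {N : ℕ} [NeZero N]

theorem count_pairs (A₀ B P : Finset (ZMod N)) :
    ∑ z ∈ B, (A₀.filter fun a => a - z ∈ P).card = ∑ t ∈ P, (A₀.filter fun a => a - t ∈ B).card := by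
  classical
  have h1 : ∑ z ∈ B, (A₀.filter fun a => a - z ∈ P).card = ∑ a ∈ A₀, (B.filter fun z => a - z ∈ P).card := by
    simp only [Finset.card_filter]
    exact Finset.sum_comm
  have h2 : ∑ t ∈ P, (A₀.filter fun a => a - t ∈ B).card = ∑ a ∈ A₀, (P.filter fun t => a - t ∈ B).card := by
    simp only [Finset.card_filter]
    exact Finset.sum_comm
  rw [h1, h2]
  refine sum_congr rfl fun a _ => ?_
  refine card_bij (fun z _ => a - z) ?_ ?_ ?_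
  · intro z hz
    rw [mem_filter] at hz ⊢
    exact ⟨hz.2, by rw [sub_sub_cancel]; exact hz.1⟩
  · intro z _ z' _ h
    exact sub_right_injective h
  · intro t ht
    rw [mem_filter] at ht
    exact ⟨a - t, by rw [mem_filter]; exact ⟨ht.2, by rw [sub_sub_cancel]; exact ht.1⟩, sub_sub_cancel _ _⟩

/-- a translate of `P(s)` with many points of `A₀` -/
theorem pick (A₀ B : Finset (ZMod N)) (s δ : ℝ) (hB : B.Nonempty) (hδ : 0 < δ) (hs0 : 0 ≤ s)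
    (hAB : A₀ ⊆ B) (hδB : δ * B.card ≤ A₀.card) (hs : 2 * s ≤ δ) :
    ∃ z ∈ B, δ / 2 * (PP B s).card ≤ (A₀.filter fun a => a - z ∈ PP B s).card := by
  classical
  by_contra hcon
  push Not at hcon
  have hBc : (0 : ℝ) < B.card := by exact_mod_cast hB.card_pos
  have h1 : ∑ z ∈ B, ((A₀.filter fun a => a - z ∈ PP B s).card : ℝ) < ∑ _z ∈ B, δ / 2 * (PP B s).card :=
    sum_lt_sum_of_nonempty hB hcon
  have h2 : ∑ z ∈ B, ((A₀.filter fun a => a - z ∈ PP B s).card : ℝ) =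
      ∑ t ∈ PP B s, ((A₀.filter fun a => a - t ∈ B).card : ℝ) := by
    exact_mod_cast count_pairs A₀ B (PP B s)
  have h3 : ∀ t ∈ PP B s, δ / 2 * B.card ≤ ((A₀.filter fun a => a - t ∈ B).card : ℝ) := by
    intro t ht
    have h4 : (A₀.filter fun a => a - t ∈ B).card + (A₀.filter fun a => ¬ (a - t ∈ B)).card = A₀.card :=
      card_filter_add_card_filter_not _
    have h5 : (A₀.filter fun a => ¬ (a - t ∈ B)).card ≤ dst B (-t) := by
      unfold dst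
      apply card_le_card
      intro a ha
      rw [mem_filter] at ha ⊢
      exact ⟨hAB ha.1, by rw [← sub_eq_add_neg]; exact ha.2⟩
    rw [dst_neg] at h5
    rw [mem_PP] at ht
    have h6 : ((A₀.filter fun a => ¬ (a - t ∈ B)).card : ℝ) ≤ s * B.card := by
      refine le_trans ?_ ht
      exact_mod_cast h5
    have h7 : ((A₀.filter fun a => a - t ∈ B).card : ℝ) + ((A₀.filter fun a => ¬ (a - t ∈ B)).card : ℝ) =
        A₀.card := by exact_mod_cast h4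
    have h8 : s * B.card ≤ δ / 2 * B.card := mul_le_mul_of_nonneg_right (by linarith) hBc.le
    linarith
  rw [h2, sum_const, nsmul_eq_mul] at h1
  have h9 : ∑ _t ∈ PP B s, δ / 2 * (B.card : ℝ) ≤ ∑ t ∈ PP B s, ((A₀.filter fun a => a - t ∈ B).card : ℝ) :=
    sum_le_sum h3
  rw [sum_const, nsmul_eq_mul] at h9
  linarith

theorem Fn_sum (A₀ A S : Finset (ZMod N)) :
    gn2 A₀ A S 0 = (∑ a ∈ A, ((A₀.filter fun x => x + a ∈ S).card : ℝ)) / (A.card * A₀.card) := by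
  unfold gn2 Fn
  rw [← sum_div, div_div]
  congr 1
  rw [sum_comm]
  refine sum_congr rfl fun a _ => ?_
  rw [card_filter]
  push_cast
  refine sum_congr rfl fun x _ => ?_
  rw [add_zero]

/-- the mean at `0` is at least `1/2` -/
theorem gn2_zero (A₀ A B : Finset (ZMod N)) (s δ : ℝ) (z : ZMod N) (hA₀ : A₀.Nonempty) (hA : A.Nonempty)
    (hAB : A₀ ⊆ B) (hδB : δ * B.card ≤ A₀.card) (hs : 2 * s ≤ δ)
    (hAP : ∀ a ∈ A, a - z ∈ PP B s) :
    1 / 2 ≤ gn2 A₀ A ((A₀ + A).filter fun c => c - z ∈ B) 0 := by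
  classical
  have hA0 : (0 : ℝ) < A₀.card := by exact_mod_cast hA₀.card_pos
  have hA1 : (0 : ℝ) < A.card := by exact_mod_cast hA.card_pos
  rw [Fn_sum, le_div_iff₀ (by positivity)]
  have h1 : ∀ a ∈ A, (A₀.card : ℝ) / 2 ≤
      ((A₀.filter fun x => x + a ∈ (A₀ + A).filter fun c => c - z ∈ B).card : ℝ) := by
    intro a ha
    have h4 : (A₀.filter fun x => x + a ∈ (A₀ + A).filter fun c => c - z ∈ B).card +
        (A₀.filter fun x => ¬ (x + a ∈ (A₀ + A).filter fun c => c - z ∈ B)).card = A₀.card :=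
      card_filter_add_card_filter_not _
    have h5 : (A₀.filter fun x => ¬ (x + a ∈ (A₀ + A).filter fun c => c - z ∈ B)).card ≤ dst B (a - z) := by
      unfold dst
      apply card_le_card
      intro x hx
      rw [mem_filter] at hx ⊢
      refine ⟨hAB hx.1, fun h => hx.2 ?_⟩
      rw [mem_filter]
      refine ⟨add_mem_add hx.1 ha, ?_⟩
      rw [add_sub_assoc]
      exact h
    have h6 := hAP a ha
    rw [mem_PP] at h6
    have h7 : ((A₀.filter fun x => ¬ (x + a ∈ (A₀ + A).filter fun c => c - z ∈ B)).card : ℝ) ≤ s * B.card := by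
      refine le_trans ?_ h6
      exact_mod_cast h5
    have h8 : ((A₀.filter fun x => x + a ∈ (A₀ + A).filter fun c => c - z ∈ B).card : ℝ) +
        ((A₀.filter fun x => ¬ (x + a ∈ (A₀ + A).filter fun c => c - z ∈ B)).card : ℝ) = A₀.card := by
      exact_mod_cast h4
    have h9 : 2 * s * B.card ≤ δ * B.card := mul_le_mul_of_nonneg_right hs (Nat.cast_nonneg _)
    linarith
  calc 1 / 2 * ((A.card : ℝ) * A₀.card) = ∑ _a ∈ A, (A₀.card : ℝ) / 2 := by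
        rw [sum_const, nsmul_eq_mul]; ring
    _ ≤ _ := sum_le_sum h1

/-- The combinatorial part: the Bohr set in terms of the numerical parameters. -/
theorem comb (CQ : ℝ)
    (hQ : ∀ (N : ℕ) [NeZero N] (Q : Finset (ZMod N)) (ℓ R : ℝ) (K : ℕ), Q.Nonempty →
      1 ≤ ℓ → (N : ℝ) ≤ Real.exp ℓ * Q.card → 1 ≤ R → CQ * ℓ ^ 7 * (ℓ + R) ^ 2 ≤ K →
      ∃ Γ : Finset (ZMod N), (Γ.card : ℝ) ≤ CQ * (1 + ℓ * (Real.log (2 + ℓ / R) / Real.log (2 + R))) ∧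
        ∀ x : ZMod N, (∀ γ ∈ Γ, CB.nn (γ * x) ≤ 1 / (8 * R)) → x ∈ Pool.Agent.N173.BG.KK K Q)
    (N : ℕ) [NeZero N] (A B : Finset (ZMod N)) (δ ℓ τ₀ : ℝ) (l m k n M₁ M₃ K J R : ℕ)
    (hB : B.Nonempty) (hδ : 0 < δ) (hδ1 : δ ≤ 1)
    (hδB : δ * B.card ≤ ((A.filter fun a => a ∈ B).card : ℝ)) (hℓ : 1 ≤ ℓ) (hτ₀ : 0 ≤ τ₀)
    (hP : (N : ℝ) ≤ Real.exp ℓ * (PP B τ₀).card)
    (hl1 : 1 ≤ l) (h16 : 16 ≤ δ * 4 ^ l) (hm : 1 ≤ m) (hk : 1 ≤ k)
    (hmom : 2 ^ (2 * m) * (2 * (6 * m / k : ℝ) ^ m) ≤ δ * (1 / (32 * l)) ^ (2 * m))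
    (hM₁ : 2 * ℓ ≤ M₁) (hM₃ : 2 * ℓ ≤ δ / 64 * M₃) (hM₃1 : 1 ≤ M₃)
    (hn : 8 * Real.log (8 * (4 / δ) ^ k) ≤ n) (hK : CQ * ℓ ^ 7 * (ℓ + R) ^ 2 ≤ K)
    (hsc : 2 * K * τ₀ ≤ δ / (512 * l ^ 2 * M₁ ^ 2 * (2 * (n + 1)) * M₃))
    (hR : 2 ≤ R) (hJ : 8 * Real.pi * n / δ ≤ (R : ℝ) ^ (J + 1)) (hK1 : 1 ≤ K) :
    ∃ Γ : Finset (ZMod N), (Γ.card : ℝ) ≤ n * (J + 1) +
      CQ * (1 + ℓ * (Real.log (2 + ℓ / R) / Real.log (2 + R))) ∧
      ∀ y : ZMod N, (∀ g ∈ Γ, CB.nn (g * y) ≤ 1 / (8 * R)) →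
        ∃ a₁ ∈ A, ∃ a₂ ∈ A, ∃ a₃ ∈ A, ∃ a₄ ∈ A, y = a₁ + a₂ - a₃ - a₄ := by
  classical
  obtain ⟨A₀, hA₀⟩ : ∃ A₀, A₀ = A.filter fun a => a ∈ B := ⟨_, rfl⟩
  rw [← hA₀] at hδB
  have hA₀A : A₀ ⊆ A := by rw [hA₀]; exact filter_subset _ _
  have hA₀B : A₀ ⊆ B := by
    rw [hA₀]
    intro a ha
    exact (mem_filter.1 ha).2
  have hBc : (0 : ℝ) < B.card := by exact_mod_cast hB.card_pos
  have hA₀c : (0 : ℝ) < A₀.card := lt_of_lt_of_le (by positivity) hδB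
  have hA₀ne : A₀.Nonempty := by
    rw [← card_pos]
    exact_mod_cast hA₀c
  have hl0 : (1 : ℝ) ≤ l := by exact_mod_cast hl1
  have hM₁0 : (1 : ℝ) ≤ M₁ := by linarith
  have hM₁1 : 1 ≤ M₁ := by exact_mod_cast hM₁0
  have hM₃0 : (1 : ℝ) ≤ M₃ := by exact_mod_cast hM₃1
  have hn0 : (0 : ℝ) ≤ n := Nat.cast_nonneg n
  have hK0 : (1 : ℝ) ≤ K := by exact_mod_cast hK1
  have hR0 : (2 : ℝ) ≤ R := by exact_mod_cast hR
  -- the scales
  obtain ⟨r₂, hr₂⟩ : ∃ r₂ : ℝ, r₂ = δ / (512 * l ^ 2 * M₁) := ⟨_, rfl⟩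
  obtain ⟨r₃, hr₃⟩ : ∃ r₃ : ℝ, r₃ = r₂ / M₁ / (2 * (n + 1)) := ⟨_, rfl⟩
  obtain ⟨g₃, hg₃⟩ : ∃ g₃ : ℝ, g₃ = r₃ / M₃ := ⟨_, rfl⟩
  have hr₂0 : 0 < r₂ := by rw [hr₂]; positivity
  have hr₃0 : 0 < r₃ := by rw [hr₃]; positivity
  have hg₃0 : 0 < g₃ := by rw [hg₃]; positivity
  have hg₃K : 2 * K * τ₀ ≤ g₃ := by
    refine hsc.trans (le_of_eq ?_)
    rw [hg₃, hr₃, hr₂]
    field_simp
  have hl2 : (1 : ℝ) ≤ (l : ℝ) ^ 2 := one_le_pow₀ hl0
  have hr₂δ : 2 * r₂ ≤ δ / (256 * l ^ 2) := by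
    have h1 : r₂ ≤ δ / (512 * l ^ 2) := by
      rw [hr₂]
      apply div_le_div_of_nonneg_left hδ.le (by positivity)
      have : 0 ≤ 512 * (l : ℝ) ^ 2 := by positivity
      nlinarith
    have h2 : δ / (256 * (l : ℝ) ^ 2) = 2 * (δ / (512 * l ^ 2)) := by field_simp; ring
    rw [h2]
    linarith
  have hr₂M : 2 * r₂ ≤ δ / 4 / M₁ := by
    have h2 : δ / 4 / (M₁ : ℝ) = 2 * (δ / (8 * M₁)) := by field_simp; ring
    rw [h2, hr₂]
    have : δ / (512 * l ^ 2 * M₁) ≤ δ / (8 * M₁) := by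
      apply div_le_div_of_nonneg_left hδ.le (by positivity)
      nlinarith
    linarith
  have hr₃r : 2 * r₃ * (n + 1) = r₂ / M₁ := by
    rw [hr₃]
    field_simp
  have hr₂M' : r₂ / M₁ ≤ r₂ := div_le_self hr₂0.le hM₁0
  have hr₃2 : 2 * r₃ ≤ r₂ := by
    have : 2 * r₃ ≤ 2 * r₃ * (n + 1) := by nlinarith
    linarith
  have hg₃r : g₃ ≤ r₃ := by rw [hg₃]; exact div_le_self hr₃0.le hM₃0
  have hτK : τ₀ ≤ 2 * K * τ₀ := by nlinarith
  have hr₂8 : r₂ ≤ δ / 8 := by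
    have : δ / (256 * (l : ℝ) ^ 2) ≤ δ / 4 := by
      apply div_le_div_of_nonneg_left hδ.le (by norm_num)
      linarith
    linarith
  have hPmono : ∀ r : ℝ, τ₀ ≤ r → (N : ℝ) ≤ Real.exp ℓ * (PP B r).card := by
    intro r hr
    refine hP.trans ?_
    have : ((PP B τ₀).card : ℝ) ≤ (PP B r).card := by exact_mod_cast card_le_card (mono_PP B hr)
    exact mul_le_mul_of_nonneg_left this (Real.exp_pos _).le
  -- the regular scales
  obtain ⟨s₁, hs₁a, hs₁b, hs₁c⟩ := regP B (δ / 4) 1 ℓ M₁ hM₁1 (by norm_num) le_rfl (by linarith)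
    (by positivity) (hPmono _ (by linarith))
  obtain ⟨s₂, hs₂a, hs₂b, hs₂c⟩ := regP B r₂ 1 ℓ M₁ hM₁1 (by norm_num) le_rfl (by linarith)
    hr₂0.le (hPmono _ (by linarith))
  obtain ⟨s₃, hs₃a, hs₃b, hs₃c⟩ := regP B r₃ (δ / 64) ℓ M₃ hM₃1 (by positivity) (by linarith) hM₃
    hr₃0.le (hPmono _ (by linarith))
  rw [← hg₃] at hs₃c
  have hs₁0 : 0 ≤ s₁ := by linarith
  have hs₂0 : 0 ≤ s₂ := by linarith
  have hs₃0 : 0 ≤ s₃ := by linarith
  -- the piece of `A`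
  obtain ⟨z, hzB, hz⟩ := pick A₀ B s₁ δ hB hδ hs₁0 hA₀B hδB (by linarith)
  obtain ⟨A₂, hA₂⟩ : ∃ A₂, A₂ = A₀.filter fun a => a - z ∈ PP B s₁ := ⟨_, rfl⟩
  rw [← hA₂] at hz
  have hP₁c : (0 : ℝ) < (PP B s₁).card := by exact_mod_cast (nonempty_PP B hs₁0).card_pos
  have hA₂c : (0 : ℝ) < A₂.card := lt_of_lt_of_le (by positivity) hz
  have hA₂ne : A₂.Nonempty := by
    rw [← card_pos]
    exact_mod_cast hA₂c
  have hA₂A : A₂ ⊆ A₀ := by rw [hA₂]; exact filter_subset _ _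
  obtain ⟨W, hW⟩ : ∃ W, W = PP B s₂ := ⟨_, rfl⟩
  have hWne : W.Nonempty := by rw [hW]; exact nonempty_PP B hs₂0
  have hWc : (0 : ℝ) < W.card := by exact_mod_cast hWne.card_pos
  have hAW : ((A₂ + W).card : ℝ) ≤ (4 / δ) * A₂.card := by
    have h1 : (A₂ + W).card ≤ (PP B (s₁ + δ / 4 / M₁)).card := by
      refine card_le_card_of_injOn (fun c => c - z) ?_ ?_
      · intro c hc
        rw [mem_coe, mem_add] at hc
        obtain ⟨a, ha, w, hw, rfl⟩ := hc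
        rw [mem_coe]
        rw [hA₂, mem_filter] at ha
        rw [hW] at hw
        have h2 := add_mem_PP B _ _ _ _ ha.2 hw
        have h3 : a - z + w = a + w - z := by ring
        rw [h3] at h2
        exact mono_PP B (by linarith) h2
      · intro a _ b _ h
        exact sub_left_injective h
    have h4 : ((A₂ + W).card : ℝ) ≤ (PP B (s₁ + δ / 4 / M₁)).card := by exact_mod_cast h1
    rw [div_mul_eq_mul_div, le_div_iff₀ hδ]
    have h5 : ((A₂ + W).card : ℝ) ≤ 2 * (PP B s₁).card := by linarith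
    nlinarith
  obtain ⟨S, hS⟩ : ∃ S, S = (A₀ + A₂).filter fun c => c - z ∈ B := ⟨_, rfl⟩
  have hSB : S.card ≤ B.card := by
    refine card_le_card_of_injOn (fun c => c - z) ?_ ?_
    · intro c hc
      rw [mem_coe, hS, mem_filter] at hc
      exact hc.2
    · intro a _ b _ h
      exact sub_left_injective h
  obtain ⟨T, hTW, hTc, hTm⟩ := cs A₂ W S B (4 / δ) k m hA₂ne hWne hAW hk hm
  have hTne : T.Nonempty := by
    rw [nonempty_iff_ne_empty]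
    rintro rfl
    rw [card_empty, Nat.cast_zero, mul_zero] at hTc
    linarith
  have hTc0 : (0 : ℝ) < T.card := by exact_mod_cast hTne.card_pos
  -- almost periodicity
  obtain ⟨τ, hτ⟩ : ∃ τ : ℝ, τ = δ / (64 * l) := ⟨_, rfl⟩
  have hτ0 : 0 < τ := by rw [hτ]; positivity
  have hη : 2 * τ / δ + 1 / (32 * l) = 1 / (16 * (l : ℝ)) := by
    rw [hτ]
    field_simp
    ring
  have hap : ∀ s ∈ T, ∀ s' ∈ T, ∀ y : ZMod N, y ∈ PP B τ → y + s - s' ∈ PP B τ →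
      |gn2 A₀ A₂ S (y + s - s') - gn2 A₀ A₂ S y| ≤ 1 / (16 * l) := by
    intro s hs s' hs' y hy hy'
    rw [← hη]
    exact ap A₀ A₂ B S δ τ (1 / (32 * l)) k m hm hA₀ne hA₀B hδ hδB (by positivity) hτ0.le hmom s s' y
      (hTm s hs s' hs') hy hy'
  have hTσ : T ⊆ PP B s₂ := by rw [← hW]; exact hTW
  have hls : 2 * (l : ℝ) * s₂ ≤ δ / (128 * l) := by
    have h1 : s₂ ≤ δ / (256 * l ^ 2) := by linarith
    have h2 : 2 * (l : ℝ) * s₂ ≤ 2 * l * (δ / (256 * l ^ 2)) := by gcongr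
    refine h2.trans (le_of_eq ?_)
    field_simp
    ring
  have hτl : τ - 2 * l * s₂ ≥ δ / (128 * l) := by
    have h1 : τ = 2 * (δ / (128 * l)) := by rw [hτ]; field_simp; ring
    linarith
  -- Chang
  obtain ⟨Λ, hΛn, hΛ⟩ := t_LCH N T (PP B s₂) (PP B (s₂ + r₂ / M₁)) (PP B s₃) 0 (n + 1) n hTne
    (nonempty_PP B hs₃0) (fun s hs => neg_mem_PP B _ _ hs)
    (fun x hx => by rw [sub_zero]; exact hTσ hx)
    (fun x hx s hs => by
      have h1 := sum_mem_PP B s₃ (n + 1) s hs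
      have h2 := add_mem_PP B _ _ _ _ hx h1
      refine mono_PP B ?_ h2
      have : ((n + 1 : ℕ) : ℝ) * s₃ ≤ (n + 1) * (2 * r₃) := by push_cast; gcongr
      linarith)
    (by linarith)
    (by
      refine le_trans ?_ hn
      have h1 : 4 * ((PP B s₂).card : ℝ) / T.card ≤ 8 * (4 / δ) ^ k := by
        rw [div_le_iff₀ hTc0, ← hW]
        linarith
      have hX : (0 : ℝ) < (PP B s₂).card := by rw [← hW]; exact hWc
      have := Real.log_le_log (by positivity) h1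
      linarith) le_rfl
  -- the Bohr set
  obtain ⟨Γ₁, hΓ₁, hΓ₁'⟩ := hQ N (PP B τ₀) ℓ R K (nonempty_PP B hτ₀) hℓ hP (by linarith) hK
  obtain ⟨Γ₂, hΓ₂⟩ : ∃ Γ₂ : Finset (ZMod N), Γ₂ = (Λ ×ˢ range (J + 1)).image
    fun p => ((R ^ p.2 : ℕ) : ZMod N) * p.1 := ⟨_, rfl⟩
  refine ⟨Γ₂ ∪ Γ₁, ?_, ?_⟩
  · have h1 : (Γ₂.card : ℝ) ≤ n * (J + 1) := by
      have : Γ₂.card ≤ n * (J + 1) := by
        rw [hΓ₂]
        refine card_image_le.trans ?_
        rw [card_product, card_range]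
        exact Nat.mul_le_mul_right _ hΛn
      exact_mod_cast this
    have h2 : ((Γ₂ ∪ Γ₁).card : ℝ) ≤ Γ₂.card + Γ₁.card := by exact_mod_cast card_union_le _ _
    linarith
  · intro y hy
    have hyP : y ∈ PP B g₃ := by
      have h1 := KK_sub B K τ₀ y (hΓ₁' y fun g hg => hy g (mem_union_right _ hg))
      exact mono_PP B hg₃K h1
    have hyτ : y ∈ PP B (τ - 2 * l * s₂) := by
      refine mono_PP B ?_ hyP
      have h1 : δ / (256 * (l : ℝ) ^ 2) ≤ δ / (128 * l) := by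
        apply div_le_div_of_nonneg_left hδ.le (by positivity)
        nlinarith
      linarith
    have h0τ : (0 : ZMod N) ∈ PP B (τ - 2 * l * s₂) := by
      apply zero_mem_PP
      have : 0 < δ / (128 * (l : ℝ)) := by positivity
      linarith
    have hfar : ∀ γ : ZMod N, (T.card : ℝ) / 2 ≤ ‖∑ t ∈ T, ψ (γ * t)‖ → ‖ψ (γ * y) - 1‖ ≤ δ / 8 := by
      intro γ hγ
      obtain ⟨ε, hε, hκ⟩ := hΛ γ hγ
      obtain ⟨κ, hκ'⟩ : ∃ κ : ZMod N, κ = γ - ∑ z ∈ Λ, (ε z : ZMod N) * z := ⟨_, rfl⟩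
      rw [← hκ'] at hκ
      have h1 : ‖ψ (κ * y) - 1‖ ≤ δ / 16 := by
        have := spec_small B s₃ g₃ (δ / 64) hs₃0 hg₃0.le hs₃c κ hκ y hyP
        linarith
      have h2 : ‖ψ ((∑ z ∈ Λ, (ε z : ZMod N) * z) * y) - 1‖ ≤ 1 / (8 * (2 / δ)) := by
        have h2δ : 1 ≤ 2 / δ := by rw [le_div_iff₀ hδ]; linarith
        refine bohr_small Λ R J hR (2 / δ) h2δ ?_ y ?_ ε hε
        · refine le_trans ?_ hJ
          have h3 : (Λ.card : ℝ) ≤ n := by exact_mod_cast hΛn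
          have := Real.pi_pos
          calc 4 * Real.pi * (2 / δ) * Λ.card ≤ 4 * Real.pi * (2 / δ) * n := by gcongr
            _ = 8 * Real.pi * n / δ := by ring
        · intro z hz i hi
          have h3 := hy (((R ^ i : ℕ) : ZMod N) * z) (mem_union_left _ (by
            rw [hΓ₂, mem_image]
            exact ⟨(z, i), mem_product.2 ⟨hz, mem_range.2 hi⟩, rfl⟩))
          refine h3.trans ?_
          apply one_div_le_one_div_of_le (by positivity)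
          linarith
      have h3 : γ * y = (∑ z ∈ Λ, (ε z : ZMod N) * z) * y + κ * y := by rw [hκ']; ring
      rw [h3]
      refine (GP.norm_ψ_sub_one_add _ _).trans ?_
      calc ‖ψ ((∑ z ∈ Λ, (ε z : ZMod N) * z) * y) - 1‖ + ‖ψ (κ * y) - 1‖ ≤ 1 / (8 * (2 / δ)) + δ / 16 :=
            add_le_add h2 h1
        _ = δ / 8 := by field_simp; ring
    have q1 := gj3_diff A₀ A₂ S T B hTne (1 / (16 * l)) τ s₂ (by positivity) hTσ hap l y hyτ hs₂0
    have q2 := gj3_diff A₀ A₂ S T B hTne (1 / (16 * l)) τ s₂ (by positivity) hTσ hap l 0 h0τ hs₂0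
    have q3 := gj3_far A₀ A₂ S B T δ l hA₀ne hA₂ne hδ hδB hA₀B hSB h16 hTne y hfar
    have q4 : 1 / 2 ≤ gn2 A₀ A₂ S 0 := by
      rw [hS]
      refine gn2_zero A₀ A₂ B s₁ δ z hA₀ne hA₂ne hA₀B hδB (by linarith) ?_
      intro a ha
      rw [hA₂, mem_filter] at ha
      exact ha.2
    have q5 : (l : ℝ) * (1 / (16 * l)) = 1 / 16 := by field_simp
    rw [q5] at q1 q2
    have q6 : 0 < gn2 A₀ A₂ S y := by
      have a1 := abs_le.1 q1
      have a2 := abs_le.1 q2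
      have a3 := abs_le.1 q3
      linarith [a1.1, a1.2, a2.1, a2.2, a3.1, a3.2]
    obtain ⟨x, hx, a, ha, hs⟩ := gn2_pos A₀ A₂ S y q6
    rw [hS, mem_filter, mem_add] at hs
    obtain ⟨⟨b, hb, c, hc, hbc⟩, -⟩ := hs
    refine ⟨b, hA₀A hb, c, hA₀A (hA₂A hc), x, hA₀A hx, a, hA₀A (hA₂A ha), ?_⟩
    rw [hbc]
    ring

end Pool.Agent.U546.TS
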