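import Pool.Agent.U546.TS.AP
import Pool.Agent.N142.CD.FOU

/-!
# The Fourier step
-/

set_option autoImplicit false

namespace Pool.Agent.U546.TS

open Finset Pool.Agent.N142.CD Pool.Agent.N142.CD.FOU
open scoped Pointwise

variable {N : ℕ} [NeZero N]

/-- the Fourier coefficients of `g` -/
noncomputable def cf3 (A₀ A S : Finset (ZMod N)) (γ : ZMod N) : ℂ :=
  hh A₀ γ * hh A γ * hh S (-γ) / ((A₀.card : ℂ) * (A.card : ℂ))

theorem gn2_eq (A₀ A S : Finset (ZMod N)) (y : ZMod N) :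
    ((gn2 A₀ A S y : ℝ) : ℂ) = (∑ γ : ZMod N, cf3 A₀ A S γ * ψ (γ * y)) / N := by
  have h1 : ((gn2 A₀ A S y : ℝ) : ℂ) =
      (∑ x ∈ A₀, ∑ a ∈ A, (if x + y + a ∈ S then (1 : ℂ) else 0)) / ((A₀.card : ℂ) * (A.card : ℂ)) := by
    unfold gn2 Fn
    push_cast
    rw [← sum_div, div_div, mul_comm (A.card : ℂ)]
    congr 1
    refine sum_congr rfl fun x _ => sum_congr rfl fun a _ => ?_
    split_ifs <;> simp
  rw [h1]
  simp_rw [ind_eq]
  simp_rw [← sum_div]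
  have h2 : ∑ x ∈ A₀, ∑ a ∈ A, ∑ γ : ZMod N, hh S (-γ) * ψ (γ * (x + y + a)) =
      ∑ γ : ZMod N, hh A₀ γ * hh A γ * hh S (-γ) * ψ (γ * y) := by
    calc ∑ x ∈ A₀, ∑ a ∈ A, ∑ γ : ZMod N, hh S (-γ) * ψ (γ * (x + y + a))
        = ∑ x ∈ A₀, ∑ γ : ZMod N, ∑ a ∈ A, hh S (-γ) * ψ (γ * (x + y + a)) :=
          sum_congr rfl fun x _ => sum_comm
      _ = ∑ γ : ZMod N, ∑ x ∈ A₀, ∑ a ∈ A, hh S (-γ) * ψ (γ * (x + y + a)) := sum_comm
      _ = _ := by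
          refine sum_congr rfl fun γ _ => ?_
          have e : hh A₀ γ * hh A γ = ∑ x ∈ A₀, ∑ a ∈ A, ψ (γ * x) * ψ (γ * a) := by
            unfold hh
            rw [sum_mul_sum]
          rw [e, sum_mul, sum_mul]
          refine sum_congr rfl fun x _ => ?_
          rw [sum_mul, sum_mul]
          refine sum_congr rfl fun a _ => ?_
          have e2 : γ * (x + y + a) = γ * x + γ * a + γ * y := by ring
          rw [e2, psi_add, psi_add]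
          ring
  rw [h2, div_div, sum_div, sum_div]
  refine sum_congr rfl fun γ _ => ?_
  unfold cf3
  rw [mul_comm (N : ℂ) _, ← div_div]
  congr 1
  ring

/-- the iterated averages of `g` -/
noncomputable def gj3 (A₀ A S T : Finset (ZMod N)) : ℕ → ZMod N → ℝ
  | 0, y => gn2 A₀ A S y
  | j + 1, y => (∑ s ∈ T, ∑ s' ∈ T, gj3 A₀ A S T j (y + s - s')) / (T.card : ℝ) ^ 2

theorem gj3_eq (A₀ A S T : Finset (ZMod N)) (j : ℕ) : ∀ y : ZMod N,
    ((gj3 A₀ A S T j y : ℝ) : ℂ) =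
      (∑ γ : ZMod N, cf3 A₀ A S γ * ((ww T γ : ℝ) : ℂ) ^ j * ψ (γ * y)) / N := by
  induction j with
  | zero =>
    intro y
    simp only [gj3, pow_zero, mul_one]
    exact gn2_eq A₀ A S y
  | succ j ih =>
    intro y
    simp only [gj3]
    push_cast
    simp_rw [ih]
    simp_rw [← sum_div]
    have h2 : ∑ s ∈ T, ∑ s' ∈ T, ∑ γ : ZMod N, cf3 A₀ A S γ * ((ww T γ : ℝ) : ℂ) ^ j * ψ (γ * (y + s - s')) =
        ∑ γ : ZMod N, cf3 A₀ A S γ * ((ww T γ : ℝ) : ℂ) ^ j * ψ (γ * y) * ((‖hh T γ‖ ^ 2 : ℝ) : ℂ) := by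
      calc ∑ s ∈ T, ∑ s' ∈ T, ∑ γ : ZMod N, cf3 A₀ A S γ * ((ww T γ : ℝ) : ℂ) ^ j * ψ (γ * (y + s - s'))
          = ∑ s ∈ T, ∑ γ : ZMod N, ∑ s' ∈ T, cf3 A₀ A S γ * ((ww T γ : ℝ) : ℂ) ^ j * ψ (γ * (y + s - s')) :=
            sum_congr rfl fun x _ => sum_comm
        _ = ∑ γ : ZMod N, ∑ s ∈ T, ∑ s' ∈ T, cf3 A₀ A S γ * ((ww T γ : ℝ) : ℂ) ^ j * ψ (γ * (y + s - s')) := sum_comm
        _ = _ := by
            refine sum_congr rfl fun γ _ => ?_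
            rw [← hh_mul_neg]
            have e : hh T γ * hh T (-γ) = ∑ s ∈ T, ∑ s' ∈ T, ψ (γ * s) * ψ (-γ * s') := by
              unfold hh
              rw [sum_mul_sum]
            rw [e, mul_sum]
            refine sum_congr rfl fun s _ => ?_
            rw [mul_sum]
            refine sum_congr rfl fun s' _ => ?_
            have e2 : γ * (y + s - s') = γ * y + γ * s + -γ * s' := by ring
            rw [e2, psi_add, psi_add]
            ring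
    rw [h2, div_div, sum_div, sum_div]
    refine sum_congr rfl fun γ _ => ?_
    rw [mul_comm (N : ℂ) _, ← div_div]
    congr 1
    rw [pow_succ]
    unfold ww
    push_cast
    ring

theorem gj3_diff (A₀ A S T B : Finset (ZMod N)) (hT : T.Nonempty) (η τ σ : ℝ) (hη : 0 ≤ η)
    (hTσ : T ⊆ PP B σ)
    (h : ∀ s ∈ T, ∀ s' ∈ T, ∀ y : ZMod N, y ∈ PP B τ → y + s - s' ∈ PP B τ →
      |gn2 A₀ A S (y + s - s') - gn2 A₀ A S y| ≤ η) (j : ℕ) :
    ∀ y : ZMod N, y ∈ PP B (τ - 2 * j * σ) → 0 ≤ σ →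
      |gj3 A₀ A S T j y - gn2 A₀ A S y| ≤ j * η := by
  have hT0 : (0 : ℝ) < (T.card : ℝ) ^ 2 := by
    have : (0 : ℝ) < T.card := by exact_mod_cast hT.card_pos
    positivity
  have hconst : ∀ c : ℝ, (∑ _s ∈ T, ∑ _s' ∈ T, c) / (T.card : ℝ) ^ 2 = c := by
    intro c
    rw [sum_const, sum_const, nsmul_eq_mul, nsmul_eq_mul, ← mul_assoc, ← pow_two, mul_comm, mul_div_assoc,
      div_self hT0.ne', mul_one]
  induction j with
  | zero =>
    intro y _ _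
    simp [gj3]
  | succ j ih =>
    intro y hy hσ
    have hmem : ∀ s ∈ T, ∀ s' ∈ T, y + s - s' ∈ PP B (τ - 2 * j * σ) := by
      intro s hs s' hs'
      have h1 := add_mem_PP B _ _ _ _ (add_mem_PP B _ _ _ _ hy (hTσ hs)) (neg_mem_PP B σ s' (hTσ hs'))
      have h2 : τ - 2 * ((j + 1 : ℕ) : ℝ) * σ + σ + σ = τ - 2 * j * σ := by push_cast; ring
      rw [h2, ← sub_eq_add_neg] at h1
      exact h1
    have hy1 : y ∈ PP B τ := by
      refine mono_PP B ?_ hy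
      have : 0 ≤ 2 * ((j + 1 : ℕ) : ℝ) * σ := by positivity
      linarith
    have e : gj3 A₀ A S T (j + 1) y - gn2 A₀ A S y =
        (∑ s ∈ T, ∑ s' ∈ T, (gj3 A₀ A S T j (y + s - s') - gn2 A₀ A S y)) / (T.card : ℝ) ^ 2 := by
      simp only [gj3]
      simp_rw [sum_sub_distrib]
      rw [sub_div]
      congr 1
      exact (hconst (gn2 A₀ A S y)).symm
    rw [e, abs_div, abs_of_pos hT0, div_le_iff₀ hT0]
    have hb : ∀ s ∈ T, ∀ s' ∈ T, |gj3 A₀ A S T j (y + s - s') - gn2 A₀ A S y| ≤ ((j + 1 : ℕ) : ℝ) * η := by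
      intro s hs s' hs'
      have h1 := ih (y + s - s') (hmem s hs s' hs') hσ
      have h2 : y + s - s' ∈ PP B τ := by
        refine mono_PP B ?_ (hmem s hs s' hs')
        have : 0 ≤ 2 * (j : ℝ) * σ := by positivity
        linarith
      have h3 := h s hs s' hs' y hy1 h2
      calc |gj3 A₀ A S T j (y + s - s') - gn2 A₀ A S y| =
            |(gj3 A₀ A S T j (y + s - s') - gn2 A₀ A S (y + s - s')) +
              (gn2 A₀ A S (y + s - s') - gn2 A₀ A S y)| := by ring_nf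
        _ ≤ |gj3 A₀ A S T j (y + s - s') - gn2 A₀ A S (y + s - s')| +
              |gn2 A₀ A S (y + s - s') - gn2 A₀ A S y| := abs_add_le _ _
        _ ≤ j * η + η := add_le_add h1 h3
        _ = _ := by push_cast; ring
    calc |∑ s ∈ T, ∑ s' ∈ T, (gj3 A₀ A S T j (y + s - s') - gn2 A₀ A S y)|
        ≤ ∑ s ∈ T, |∑ s' ∈ T, (gj3 A₀ A S T j (y + s - s') - gn2 A₀ A S y)| := abs_sum_le_sum_abs _ _
      _ ≤ ∑ s ∈ T, ∑ s' ∈ T, |gj3 A₀ A S T j (y + s - s') - gn2 A₀ A S y| :=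
          sum_le_sum fun s _ => abs_sum_le_sum_abs _ _
      _ ≤ ∑ s ∈ T, ∑ s' ∈ T, ((j + 1 : ℕ) : ℝ) * η :=
          sum_le_sum fun s hs => sum_le_sum fun s' hs' => hb s hs s' hs'
      _ = ((j + 1 : ℕ) : ℝ) * η * (T.card : ℝ) ^ 2 := by
          rw [sum_const, sum_const, nsmul_eq_mul, nsmul_eq_mul]
          ring

theorem hh_norm_neg (A : Finset (ZMod N)) (γ : ZMod N) : ‖hh A (-γ)‖ = ‖hh A γ‖ := by
  rw [hh_neg, RCLike.norm_conj]

theorem gj3_far (A₀ A S B T : Finset (ZMod N)) (δ : ℝ) (l : ℕ) (hA₀ : A₀.Nonempty) (hA : A.Nonempty)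
    (hδ : 0 < δ) (hδB : δ * B.card ≤ A₀.card) (hAB : A₀ ⊆ B)
    (hS : S.card ≤ B.card) (h16 : 16 ≤ δ * 4 ^ l) (hTn : T.Nonempty) (y : ZMod N)
    (hy : ∀ γ : ZMod N, (T.card : ℝ) / 2 ≤ ‖∑ t ∈ T, ψ (γ * t)‖ → ‖ψ (γ * y) - 1‖ ≤ δ / 8) :
    |gj3 A₀ A S T l y - gj3 A₀ A S T l 0| ≤ 1 / 8 := by
  have hN : (0 : ℝ) < N := by
    have := NeZero.pos N
    exact_mod_cast this
  have hA0 : (0 : ℝ) < A₀.card := by exact_mod_cast hA₀.card_pos
  have hA1 : (0 : ℝ) < A.card := by exact_mod_cast hA.card_pos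
  have hT0 : (0 : ℝ) < T.card := by exact_mod_cast hTn.card_pos
  have e : ((gj3 A₀ A S T l y - gj3 A₀ A S T l 0 : ℝ) : ℂ) =
      (∑ γ : ZMod N, cf3 A₀ A S γ * ((ww T γ : ℝ) : ℂ) ^ l * (ψ (γ * y) - 1)) / N := by
    rw [Complex.ofReal_sub, gj3_eq, gj3_eq, ← sub_div, ← sum_sub_distrib]
    congr 1
    refine sum_congr rfl fun γ _ => ?_
    have : ψ (γ * (0 : ZMod N)) = 1 := by
      rw [mul_zero]
      exact AddChar.map_zero_eq_one _
    rw [this]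
    ring
  have hb : ∀ γ : ZMod N, ‖cf3 A₀ A S γ * ((ww T γ : ℝ) : ℂ) ^ l * (ψ (γ * y) - 1)‖ ≤
      (‖hh A₀ γ‖ ^ 2 + ‖hh S γ‖ ^ 2) * (δ / (16 * A₀.card)) := by
    intro γ
    have h1 : ‖cf3 A₀ A S γ‖ ≤ (‖hh A₀ γ‖ ^ 2 + ‖hh S γ‖ ^ 2) * (1 / (2 * A₀.card)) := by
      unfold cf3
      rw [norm_div, norm_mul, norm_mul, norm_mul, Complex.norm_natCast, Complex.norm_natCast, hh_norm_neg]
      have h2 : ‖hh A γ‖ ≤ A.card := hh_norm_le A γ
      rw [div_le_iff₀ (by positivity)]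
      have h3 : ‖hh A₀ γ‖ * ‖hh S γ‖ ≤ (‖hh A₀ γ‖ ^ 2 + ‖hh S γ‖ ^ 2) / 2 := by
        nlinarith [sq_nonneg (‖hh A₀ γ‖ - ‖hh S γ‖)]
      calc ‖hh A₀ γ‖ * ‖hh A γ‖ * ‖hh S γ‖ = (‖hh A₀ γ‖ * ‖hh S γ‖) * ‖hh A γ‖ := by ring
        _ ≤ ((‖hh A₀ γ‖ ^ 2 + ‖hh S γ‖ ^ 2) / 2) * A.card :=
            mul_le_mul h3 h2 (norm_nonneg _) (by positivity)
        _ = _ := by field_simp
    have h3 : ww T γ ^ l * ‖ψ (γ * y) - 1‖ ≤ δ / 8 := by
      by_cases hγ : (T.card : ℝ) / 2 ≤ ‖∑ t ∈ T, ψ (γ * t)‖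
      · calc ww T γ ^ l * ‖ψ (γ * y) - 1‖ ≤ 1 * (δ / 8) :=
              mul_le_mul (pow_le_one₀ (ww_nonneg T γ) (ww_le_one T γ)) (hy γ hγ) (norm_nonneg _) zero_le_one
          _ = _ := one_mul _
      · push Not at hγ
        have h4 : ww T γ ≤ 1 / 4 := by
          unfold ww
          rw [div_le_iff₀ (by positivity)]
          have h5 : ‖hh T γ‖ ≤ (T.card : ℝ) / 2 := hγ.le
          calc ‖hh T γ‖ ^ 2 ≤ ((T.card : ℝ) / 2) ^ 2 := pow_le_pow_left₀ (norm_nonneg _) h5 2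
            _ = _ := by ring
        have h6 : ‖ψ (γ * y) - 1‖ ≤ 2 := by
          calc ‖ψ (γ * y) - 1‖ ≤ ‖ψ (γ * y)‖ + ‖(1 : ℂ)‖ := norm_sub_le _ _
            _ = 2 := by rw [psi_norm, norm_one]; norm_num
        calc ww T γ ^ l * ‖ψ (γ * y) - 1‖ ≤ (1 / 4) ^ l * 2 :=
              mul_le_mul (pow_le_pow_left₀ (ww_nonneg T γ) h4 l) h6 (norm_nonneg _) (by positivity)
          _ = 2 / 4 ^ l := by
              rw [div_pow, one_pow]
              ring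
          _ ≤ δ / 8 := by
              rw [div_le_div_iff₀ (by positivity) (by positivity)]
              linarith
    rw [norm_mul, norm_mul, norm_pow, Complex.norm_real, Real.norm_of_nonneg (ww_nonneg T γ), mul_assoc]
    calc ‖cf3 A₀ A S γ‖ * (ww T γ ^ l * ‖ψ (γ * y) - 1‖)
        ≤ ((‖hh A₀ γ‖ ^ 2 + ‖hh S γ‖ ^ 2) * (1 / (2 * A₀.card))) * (δ / 8) :=
          mul_le_mul h1 h3 (mul_nonneg (pow_nonneg (ww_nonneg T γ) l) (norm_nonneg _)) (by positivity)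
      _ = _ := by field_simp; ring
  have h7 : ‖((gj3 A₀ A S T l y - gj3 A₀ A S T l 0 : ℝ) : ℂ)‖ ≤ 1 / 8 := by
    rw [e, norm_div, Complex.norm_natCast, div_le_iff₀ hN]
    calc ‖∑ γ : ZMod N, cf3 A₀ A S γ * ((ww T γ : ℝ) : ℂ) ^ l * (ψ (γ * y) - 1)‖
        ≤ ∑ γ : ZMod N, ‖cf3 A₀ A S γ * ((ww T γ : ℝ) : ℂ) ^ l * (ψ (γ * y) - 1)‖ := norm_sum_le _ _
      _ ≤ ∑ γ : ZMod N, (‖hh A₀ γ‖ ^ 2 + ‖hh S γ‖ ^ 2) * (δ / (16 * A₀.card)) := sum_le_sum fun γ _ => hb γ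
      _ = (N * A₀.card + N * S.card) * (δ / (16 * A₀.card)) := by
          rw [← sum_mul, sum_add_distrib, parseval, parseval]
      _ ≤ (N * (A₀.card / δ) + N * (A₀.card / δ)) * (δ / (16 * A₀.card)) := by
          have hB : (B.card : ℝ) ≤ A₀.card / δ := by
            rw [le_div_iff₀ hδ]
            linarith
          have h8 : (A₀.card : ℝ) ≤ B.card := by exact_mod_cast card_le_card hAB
          have h9 : (S.card : ℝ) ≤ B.card := by exact_mod_cast hS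
          have h10 : (A₀.card : ℝ) ≤ A₀.card / δ := h8.trans hB
          have h11 : (S.card : ℝ) ≤ A₀.card / δ := h9.trans hB
          gcongr
      _ = 1 / 8 * N := by field_simp; ring
  rwa [Complex.norm_real, Real.norm_eq_abs] at h7

omit [NeZero N] in
theorem gn2_pos (A₀ A S : Finset (ZMod N)) (y : ZMod N) (h : 0 < gn2 A₀ A S y) :
    ∃ x ∈ A₀, ∃ a ∈ A, x + y + a ∈ S := by
  by_contra hcon
  push Not at hcon
  have : gn2 A₀ A S y = 0 := by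
    unfold gn2 Fn
    rw [sum_eq_zero, zero_div]
    intro x hx
    rw [sum_eq_zero, zero_div]
    intro a ha
    rw [if_neg (hcon x hx a ha)]
  rw [this] at h
  exact lt_irrefl _ h

end Pool.Agent.U546.TS
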