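import Pool.Agent.U546.TS.Comb
import Pool.Agent.N142.CD.ASM

/-!
# Choice of the parameters
-/

set_option autoImplicit false

namespace Pool.Agent.U546.TS

open Finset Pool.Agent.TH858 Pool.Agent.N142.CD

/-- the constant `C₄` -/
noncomputable def c4 : ℝ := 10 ^ 8

/-- choice of the numbers `l`, `m`, `k`, `n`, `J` -/
theorem numbers : ∃ C : ℝ, 1 ≤ C ∧ ∀ (δ : ℝ) (R : ℕ), 0 < δ → δ ≤ 1 → 2 ≤ R →
    ∃ l m k n J : ℕ, 1 ≤ l ∧ 16 ≤ δ * 4 ^ l ∧ 1 ≤ m ∧ 1 ≤ k ∧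
      2 ^ (2 * m) * (2 * (6 * m / k : ℝ) ^ m) ≤ δ * (1 / (32 * l)) ^ (2 * m) ∧
      8 * Real.log (8 * (4 / δ) ^ k) ≤ n ∧ 8 * Real.pi * n / δ ≤ (R : ℝ) ^ (J + 1) ∧
      (n : ℝ) * (J + 1) ≤ C * (Real.log (2 / δ) ^ 4 * (1 + Real.log (2 / δ) / Real.log R)) ∧
      (l : ℝ) ≤ 5 * Real.log (2 / δ) ∧ (n : ℝ) + 1 ≤ c4 * Real.log (2 / δ) ^ 4 := by
  refine ⟨c4 * (60 + 2 * c4), by unfold c4; norm_num, ?_⟩
  intro δ R hδ hδ1 hR
  obtain ⟨L, hL⟩ : ∃ L : ℝ, L = Real.log (2 / δ) := ⟨_, rfl⟩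
  rw [← hL]
  have hlog2 := Real.log_two_gt_d9
  have hlog2' := Real.log_two_lt_d9
  have h2δ : 2 ≤ 2 / δ := by rw [le_div_iff₀ hδ]; linarith
  have hL2 : Real.log 2 ≤ L := by rw [hL]; exact Real.log_le_log (by norm_num) h2δ
  have hexpL : Real.exp L = 2 / δ := by rw [hL, Real.exp_log (by positivity)]
  have hL0 : 0 < L := by linarith
  have h2L : 1 ≤ 2 * L := by linarith
  have hL3 : 0 < L ^ 3 := by positivity
  have hL4 : 0 < L ^ 4 := by positivity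
  have h16L : 1 ≤ 16 * L ^ 4 := by
    have := one_le_pow₀ h2L (n := 4)
    calc (1 : ℝ) ≤ (2 * L) ^ 4 := this
      _ = 16 * L ^ 4 := by ring
  obtain ⟨l, hl1, hl2, hl3⟩ := exists_l (1 / δ) (by rw [le_div_iff₀ hδ]; linarith)
  have hl3' : (l : ℝ) ≤ 5 * L := by
    have : 2 * (1 / δ) = 2 / δ := by ring
    rw [this, ← hL] at hl3
    exact hl3
  have h16 : 16 ≤ δ * 4 ^ l := by
    have : 16 * (1 / δ) = 16 / δ := by ring
    rw [this, div_le_iff₀ hδ] at hl2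
    linarith
  have hl0 : (1 : ℝ) ≤ l := by exact_mod_cast hl1
  obtain ⟨m, hm⟩ : ∃ m : ℕ, m = ⌈L⌉₊ := ⟨_, rfl⟩
  have hmL : L ≤ m := by rw [hm]; exact Nat.le_ceil _
  have hm3 : (m : ℝ) ≤ 3 * L := by
    have := (Nat.ceil_lt_add_one hL0.le).le
    rw [← hm] at this
    linarith
  have hm1 : 1 ≤ m := by
    have : (0 : ℝ) < m := by linarith
    exact_mod_cast this
  have hm1R : (1 : ℝ) ≤ m := by exact_mod_cast hm1
  obtain ⟨k, hk⟩ : ∃ k : ℕ, k = 73728 * m * l ^ 2 := ⟨_, rfl⟩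
  have hkr : (k : ℝ) = 73728 * m * l ^ 2 := by rw [hk]; push_cast; ring
  have hk1 : 1 ≤ k := by
    rw [hk]
    have : 1 ≤ l ^ 2 := Nat.one_le_pow _ _ hl1
    calc 1 = 1 * 1 * 1 := rfl
      _ ≤ 73728 * m * l ^ 2 := Nat.mul_le_mul (Nat.mul_le_mul (by norm_num) hm1) this
  have hkL : (k : ℝ) ≤ 5529600 * L ^ 3 := by
    rw [hkr]
    calc 73728 * (m : ℝ) * (l : ℝ) ^ 2 ≤ 73728 * (3 * L) * (5 * L) ^ 2 := by gcongr
      _ = 5529600 * L ^ 3 := by ring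
  have hmom : 2 ^ (2 * m) * (2 * (6 * m / k : ℝ) ^ m) ≤ δ * (1 / (32 * l)) ^ (2 * m) := by
    have e1 : (6 * m / k : ℝ) = 1 / (12288 * l ^ 2) := by
      rw [hkr]
      field_simp
      norm_num
    have e2 : (2 : ℝ) ^ (2 * m) * (2 * (6 * m / k : ℝ) ^ m) = 2 * (1 / (3072 * l ^ 2)) ^ m := by
      rw [e1, pow_mul]
      have : (1 / (3072 * (l : ℝ) ^ 2)) = 2 ^ 2 * (1 / (12288 * l ^ 2)) := by
        field_simp
        norm_num
      rw [this, mul_pow]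
      ring
    have e3 : (1 / (32 * (l : ℝ))) ^ (2 * m) = (3 * (1 / (3072 * l ^ 2))) ^ m := by
      rw [pow_mul]
      congr 1
      field_simp
      norm_num
    rw [e2, e3, mul_pow]
    have h3 : 2 / δ ≤ (3 : ℝ) ^ m := by
      rw [← hexpL]
      calc Real.exp L ≤ Real.exp m := Real.exp_le_exp.2 hmL
        _ = Real.exp 1 ^ m := by rw [← Real.exp_nat_mul, mul_one]
        _ ≤ 3 ^ m := by
            apply pow_le_pow_left₀ (Real.exp_pos _).le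
            linarith [Real.exp_one_lt_d9]
    rw [div_le_iff₀ hδ] at h3
    have h4 : 0 ≤ (1 / (3072 * (l : ℝ) ^ 2)) ^ m := by positivity
    nlinarith
  have hlog4 : Real.log (4 / δ) ≤ 2 * L := by
    have : 4 / δ = 2 * (2 / δ) := by ring
    rw [this, Real.log_mul (by norm_num) (by positivity), ← hL]
    linarith
  have hlogn : Real.log (8 * (4 / δ) ^ k) ≤ 11059248 * L ^ 4 := by
    rw [Real.log_mul (by norm_num) (by positivity), Real.log_pow]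
    have h8 : Real.log 8 ≤ 3 := by
      have : Real.log 8 = 3 * Real.log 2 := by
        rw [show (8 : ℝ) = 2 ^ 3 by norm_num, Real.log_pow]; norm_num
      linarith
    have h9 : 0 ≤ Real.log (4 / δ) := Real.log_nonneg (by rw [le_div_iff₀ hδ]; linarith)
    have h10 : (k : ℝ) * Real.log (4 / δ) ≤ 5529600 * L ^ 3 * (2 * L) := by gcongr
    have h11 : 5529600 * L ^ 3 * (2 * L) = 11059200 * L ^ 4 := by ring
    linarith
  obtain ⟨n, hn⟩ : ∃ n : ℕ, n = ⌈8 * Real.log (8 * (4 / δ) ^ k)⌉₊ := ⟨_, rfl⟩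
  have hn1 : 8 * Real.log (8 * (4 / δ) ^ k) ≤ n := by rw [hn]; exact Nat.le_ceil _
  have hlog0 : 0 ≤ Real.log (8 * (4 / δ) ^ k) := by
    apply Real.log_nonneg
    have h1 : 1 ≤ (4 / δ) ^ k := one_le_pow₀ (by rw [le_div_iff₀ hδ]; linarith)
    linarith
  have hn2 : (n : ℝ) + 1 ≤ c4 * L ^ 4 := by
    have h1 : (n : ℝ) ≤ 8 * Real.log (8 * (4 / δ) ^ k) + 1 := by
      rw [hn]; exact (Nat.ceil_lt_add_one (by positivity)).le
    unfold c4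
    linarith
  have hn0 : (0 : ℝ) ≤ n := Nat.cast_nonneg n
  have hR2 : (2 : ℝ) ≤ R := by exact_mod_cast hR
  have hlogR : Real.log 2 ≤ Real.log R := Real.log_le_log (by norm_num) hR2
  have hlogR0 : 0 < Real.log R := by linarith
  have hpi := Real.pi_pos
  have hpi4 := Real.pi_lt_four
  have hpi3 := Real.pi_gt_three
  have hn10 : (0 : ℝ) < (n : ℝ) + 1 := by linarith
  obtain ⟨Z, hZ⟩ : ∃ Z : ℝ, Z = 8 * Real.pi * ((n : ℝ) + 1) / δ := ⟨_, rfl⟩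
  have hZ1 : 1 ≤ Z := by
    rw [hZ, le_div_iff₀ hδ]
    nlinarith
  obtain ⟨J, hJ⟩ : ∃ J : ℕ, J = ⌊Real.log Z / Real.log R⌋₊ := ⟨_, rfl⟩
  have hpow : 8 * Real.pi * n / δ ≤ (R : ℝ) ^ (J + 1) := by
    have h1 := (Nat.lt_floor_add_one (Real.log Z / Real.log R)).le
    rw [← hJ, div_le_iff₀ hlogR0] at h1
    have h2 : Real.log Z ≤ Real.log ((R : ℝ) ^ (J + 1)) := by
      rw [Real.log_pow]
      push_cast
      exact h1
    have h3 : Z ≤ (R : ℝ) ^ (J + 1) := (Real.log_le_log_iff (by linarith) (by positivity)).1 h2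
    refine le_trans ?_ h3
    rw [hZ]
    gcongr
    linarith
  have hlogL : Real.log L ≤ L := by
    have := Real.log_le_sub_one_of_pos hL0
    linarith
  have hc40 : 0 < c4 := by unfold c4; norm_num
  have hlogC₄ : Real.log c4 ≤ c4 := by
    have := Real.log_le_sub_one_of_pos hc40
    linarith
  have hlogn' : Real.log ((n : ℝ) + 1) ≤ c4 + 4 * L := by
    refine (Real.log_le_log hn10 hn2).trans ?_
    rw [Real.log_mul (by linarith) hL4.ne', Real.log_pow]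
    push_cast
    linarith
  have hC₄L : c4 ≤ 2 * c4 * L := by nlinarith
  have hJ2 : (J : ℝ) + 1 ≤ (60 + 2 * c4) * (1 + L / Real.log R) := by
    have h1 : (J : ℝ) ≤ Real.log Z / Real.log R := by
      rw [hJ]
      exact Nat.floor_le (div_nonneg (Real.log_nonneg hZ1) hlogR0.le)
    have h2 : Real.log Z ≤ (60 + 2 * c4) * L := by
      have h3 : Z = (8 * Real.pi) * (((n : ℝ) + 1) * (1 / δ)) := by rw [hZ]; ring
      have h3a : Real.log ((8 * Real.pi) * (((n : ℝ) + 1) * (1 / δ))) =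
          Real.log (8 * Real.pi) + Real.log (((n : ℝ) + 1) * (1 / δ)) :=
        Real.log_mul (by positivity) (by positivity)
      have h3b : Real.log (((n : ℝ) + 1) * (1 / δ)) = Real.log ((n : ℝ) + 1) + Real.log (1 / δ) :=
        Real.log_mul (by positivity) (by positivity)
      rw [h3, h3a, h3b]
      have h4 : Real.log (8 * Real.pi) ≤ 24 := by
        have h5 : 8 * Real.pi ≤ Real.exp 1 ^ 24 := by
          have h6 : (2 : ℝ) ^ 24 ≤ Real.exp 1 ^ 24 :=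
            pow_le_pow_left₀ (by norm_num) (by linarith [Real.exp_one_gt_d9]) _
          have h7 : (32 : ℝ) ≤ 2 ^ 24 := by norm_num
          linarith
        have h8 := Real.log_le_log (by positivity) h5
        rw [Real.log_pow, Real.log_exp] at h8
        simpa using h8
      have h5 : Real.log (1 / δ) ≤ L := by
        rw [hL]
        exact Real.log_le_log (by positivity) (by gcongr; norm_num)
      linarith
    have h3 : Real.log Z / Real.log R ≤ (60 + 2 * c4) * L / Real.log R := by gcongr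
    have h4 : (60 + 2 * c4) * L / Real.log R = (60 + 2 * c4) * (L / Real.log R) := by rw [mul_div_assoc]
    rw [h4] at h3
    linarith
  refine ⟨l, m, k, n, J, hl1, h16, hm1, hk1, hmom, hn1, hpow, ?_, hl3', hn2⟩
  have hLR : 0 ≤ L / Real.log R := by positivity
  calc (n : ℝ) * (J + 1) ≤ (c4 * L ^ 4) * ((60 + 2 * c4) * (1 + L / Real.log R)) := by
        gcongr
        linarith
    _ = _ := by ring

/-- **The theorem with a free radius.** -/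
theorem main1 : ∃ C : ℝ, 1 ≤ C ∧ ∀ (N : ℕ) [NeZero N] (A B : Finset (ZMod N)) (δ ℓ : ℝ) (R : ℕ),
    B.Nonempty → 0 < δ → δ ≤ 1 → δ * B.card ≤ ((A.filter fun a => a ∈ B).card : ℝ) → 1 ≤ ℓ → 2 ≤ R →
    (N : ℝ) ≤ Real.exp ℓ * (PP B (δ ^ 3 / (C * (ℓ + R) ^ 12))).card →
    ∃ Γ : Finset (ZMod N), (Γ.card : ℝ) ≤ C * (ℓ * (Real.log (2 + ℓ / R) / Real.log (2 + R)) +
      Real.log (2 / δ) ^ 4 * (1 + Real.log (2 / δ) / Real.log R)) ∧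
      ∀ y : ZMod N, (∀ g ∈ Γ, CB.nn (g * y) ≤ 1 / (8 * R)) →
        ∃ a₁ ∈ A, ∃ a₂ ∈ A, ∃ a₃ ∈ A, ∃ a₄ ∈ A, y = a₁ + a₂ - a₃ - a₄ := by
  obtain ⟨CQ, hCQ, hQ⟩ := bohrQ
  obtain ⟨Cn, hCn, hnum⟩ := numbers
  obtain ⟨C₈, hC₈⟩ : ∃ C₈ : ℝ, C₈ = 512 * 25 * 9 * 2 * 129 * 1440 * c4 := ⟨_, rfl⟩
  have hc40 : 0 < c4 := by unfold c4; norm_num
  have hC₈0 : 0 < C₈ := by rw [hC₈]; positivity
  refine ⟨4 * CQ * C₈ + 17 * CQ + Cn, by nlinarith, ?_⟩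
  obtain ⟨C, hC⟩ : ∃ C : ℝ, C = 4 * CQ * C₈ + 17 * CQ + Cn := ⟨_, rfl⟩
  rw [← hC]
  have hC1 : 4 * CQ * C₈ ≤ C := by rw [hC]; nlinarith
  have hC0 : 0 < C := lt_of_lt_of_le (by positivity) hC1
  intro N _ A B δ ℓ R hB hδ hδ1 hδB hℓ hR hP
  obtain ⟨l, m, k, n, J, hl1, h16, hm1, hk1, hmom, hn1, hpow, hnJ, hlL, hnL⟩ := hnum δ R hδ hδ1 hR
  obtain ⟨L, hL⟩ : ∃ L : ℝ, L = Real.log (2 / δ) := ⟨_, rfl⟩
  rw [← hL] at hnJ hlL hnL ⊢
  have hlog2 := Real.log_two_gt_d9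
  have h2δ : 2 ≤ 2 / δ := by rw [le_div_iff₀ hδ]; linarith
  have hL2 : Real.log 2 ≤ L := by rw [hL]; exact Real.log_le_log (by norm_num) h2δ
  have hexpL : Real.exp L = 2 / δ := by rw [hL, Real.exp_log (by positivity)]
  have hL0 : 0 < L := by linarith
  have h2L : 1 ≤ 2 * L := by linarith
  have h16L : 1 ≤ 16 * L ^ 4 := by
    have := one_le_pow₀ h2L (n := 4)
    calc (1 : ℝ) ≤ (2 * L) ^ 4 := this
      _ = 16 * L ^ 4 := by ring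
  have hR2 : (2 : ℝ) ≤ R := by exact_mod_cast hR
  have hl0 : (1 : ℝ) ≤ l := by exact_mod_cast hl1
  obtain ⟨M₁, hM₁⟩ : ∃ M₁ : ℕ, M₁ = ⌈2 * ℓ⌉₊ := ⟨_, rfl⟩
  have hM₁a : 2 * ℓ ≤ M₁ := by rw [hM₁]; exact Nat.le_ceil _
  have hM₁b : (M₁ : ℝ) ≤ 3 * ℓ := by
    have := (Nat.ceil_lt_add_one (by linarith : 0 ≤ 2 * ℓ)).le
    rw [← hM₁] at this
    linarith
  obtain ⟨M₃, hM₃⟩ : ∃ M₃ : ℕ, M₃ = ⌈128 * ℓ / δ⌉₊ := ⟨_, rfl⟩
  have hM₃a : 128 * ℓ / δ ≤ M₃ := by rw [hM₃]; exact Nat.le_ceil _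
  have hM₃b : (M₃ : ℝ) ≤ 129 * ℓ / δ := by
    have h1 := (Nat.ceil_lt_add_one (by positivity : 0 ≤ 128 * ℓ / δ)).le
    rw [← hM₃] at h1
    have h2 : 1 ≤ ℓ / δ := by rw [le_div_iff₀ hδ]; linarith
    have h3 : 129 * ℓ / δ = 128 * ℓ / δ + ℓ / δ := by ring
    linarith
  have hM₃c : 2 * ℓ ≤ δ / 64 * M₃ := by
    rw [div_le_iff₀ hδ] at hM₃a
    linarith
  have hM₃0 : (0 : ℝ) < M₃ := lt_of_lt_of_le (by positivity) hM₃a
  have hM₃1 : 1 ≤ M₃ := by exact_mod_cast hM₃0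
  obtain ⟨K, hK⟩ : ∃ K : ℕ, K = ⌈CQ * ℓ ^ 7 * (ℓ + R) ^ 2⌉₊ := ⟨_, rfl⟩
  have hKa : CQ * ℓ ^ 7 * (ℓ + R) ^ 2 ≤ K := by rw [hK]; exact Nat.le_ceil _
  have hbig : 1 ≤ CQ * ℓ ^ 7 * (ℓ + R) ^ 2 := by
    have h1 : 1 ≤ ℓ ^ 7 := one_le_pow₀ hℓ
    have h2 : 1 ≤ (ℓ + R) ^ 2 := one_le_pow₀ (by linarith)
    have h3 : 1 ≤ CQ * ℓ ^ 7 := by nlinarith
    nlinarith
  have hKb : (K : ℝ) ≤ 2 * CQ * (ℓ + R) ^ 9 := by
    have h1 := (Nat.ceil_lt_add_one (by linarith : 0 ≤ CQ * ℓ ^ 7 * (ℓ + R) ^ 2)).le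
    rw [← hK] at h1
    have h2 : CQ * ℓ ^ 7 * (ℓ + R) ^ 2 ≤ CQ * (ℓ + R) ^ 7 * (ℓ + R) ^ 2 := by
      gcongr
      linarith
    have h3 : CQ * (ℓ + R) ^ 7 * (ℓ + R) ^ 2 = CQ * (ℓ + R) ^ 9 := by ring
    linarith
  have hK1 : 1 ≤ K := by
    have : (0 : ℝ) < K := by linarith
    exact_mod_cast this
  obtain ⟨τ₀, hτ₀⟩ : ∃ τ₀ : ℝ, τ₀ = δ ^ 3 / (C * (ℓ + R) ^ 12) := ⟨_, rfl⟩
  rw [← hτ₀] at hP
  have hτ₀0 : 0 ≤ τ₀ := by rw [hτ₀]; positivity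
  have hL6 : L ^ 6 ≤ 1440 / δ := by
    have h1 := Real.pow_div_factorial_le_exp L hL0.le 6
    rw [hexpL, div_le_iff₀ (by positivity)] at h1
    have h2 : ((Nat.factorial 6 : ℕ) : ℝ) = 720 := by norm_num [Nat.factorial]
    rw [h2] at h1
    have h3 : 2 / δ * 720 = 1440 / δ := by ring
    linarith
  have hsc : 2 * K * τ₀ ≤ δ / (512 * l ^ 2 * M₁ ^ 2 * (2 * (n + 1)) * M₃) := by
    have h1 : 2 * K * τ₀ ≤ δ ^ 3 / (C₈ * ℓ ^ 3) := by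
      rw [hτ₀]
      have h2 : 2 * (K : ℝ) * (δ ^ 3 / (C * (ℓ + R) ^ 12)) ≤
          2 * (2 * CQ * (ℓ + R) ^ 9) * (δ ^ 3 / (C * (ℓ + R) ^ 12)) := by gcongr
      refine h2.trans ?_
      have hR0 : (0 : ℝ) < ℓ + R := by linarith
      have h3 : 2 * (2 * CQ * (ℓ + R) ^ 9) * (δ ^ 3 / (C * (ℓ + R) ^ 12)) =
          δ ^ 3 * (4 * CQ) / (C * (ℓ + R) ^ 3) := by
        field_simp
        ring
      rw [h3, div_le_div_iff₀ (by positivity) (by positivity)]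
      calc δ ^ 3 * (4 * CQ) * (C₈ * ℓ ^ 3) = δ ^ 3 * ((4 * CQ * C₈) * ℓ ^ 3) := by ring
        _ ≤ δ ^ 3 * (C * (ℓ + R) ^ 3) := by
            gcongr
            linarith
    refine h1.trans ?_
    have hn10 : (0 : ℝ) < n + 1 := by positivity
    have hM₁0 : (0 : ℝ) < M₁ := by linarith
    rw [div_le_div_iff₀ (by positivity) (by positivity)]
    have h4 : 512 * (l : ℝ) ^ 2 * M₁ ^ 2 * (2 * (n + 1)) * M₃ ≤
        512 * (5 * L) ^ 2 * (3 * ℓ) ^ 2 * (2 * (c4 * L ^ 4)) * (129 * ℓ / δ) := by gcongr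
    have h5 : 512 * (5 * L) ^ 2 * (3 * ℓ) ^ 2 * (2 * (c4 * L ^ 4)) * (129 * ℓ / δ) =
        (512 * 25 * 9 * 2 * 129 * c4) * ℓ ^ 3 / δ * L ^ 6 := by
      field_simp
      ring
    rw [h5] at h4
    have h6 : (512 * 25 * 9 * 2 * 129 * c4) * ℓ ^ 3 / δ * L ^ 6 ≤
        (512 * 25 * 9 * 2 * 129 * c4) * ℓ ^ 3 / δ * (1440 / δ) := by gcongr
    calc δ ^ 3 * (512 * (l : ℝ) ^ 2 * M₁ ^ 2 * (2 * (n + 1)) * M₃)
        ≤ δ ^ 3 * ((512 * 25 * 9 * 2 * 129 * c4) * ℓ ^ 3 / δ * (1440 / δ)) :=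
          mul_le_mul_of_nonneg_left (h4.trans h6) (by positivity)
      _ = δ * (C₈ * ℓ ^ 3) := by
          rw [hC₈]
          field_simp
  obtain ⟨Γ, hΓ1, hΓ2⟩ := comb CQ hQ N A B δ ℓ τ₀ l m k n M₁ M₃ K J R hB hδ hδ1 hδB hℓ hτ₀0 hP hl1 h16
    hm1 hk1 hmom hM₁a hM₃c hM₃1 hn1 hKa hsc hR hpow hK1
  refine ⟨Γ, ?_, hΓ2⟩
  have hlogR0 : 0 < Real.log R := Real.log_pos (by linarith)
  have hLR : 0 ≤ L / Real.log R := by positivity
  have hX0 : 0 ≤ ℓ * (Real.log (2 + ℓ / R) / Real.log (2 + R)) := by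
    have h1 : 0 ≤ Real.log (2 + ℓ / R) := by
      apply Real.log_nonneg
      have : 0 ≤ ℓ / R := by positivity
      linarith
    have h2 : 0 < Real.log (2 + (R : ℝ)) := Real.log_pos (by linarith)
    positivity
  obtain ⟨X, hX⟩ : ∃ X : ℝ, X = ℓ * (Real.log (2 + ℓ / R) / Real.log (2 + R)) := ⟨_, rfl⟩
  obtain ⟨Y, hY⟩ : ∃ Y : ℝ, Y = L ^ 4 * (1 + L / Real.log R) := ⟨_, rfl⟩
  rw [← hX] at hΓ1 hX0 ⊢
  rw [← hY] at hnJ ⊢
  have hY1 : 1 ≤ 16 * Y := by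
    rw [hY]
    have : 0 ≤ 16 * L ^ 4 * (L / Real.log R) := by positivity
    linarith
  have hY0 : 0 ≤ Y := by linarith
  have hCX : (17 * CQ) * X ≤ C * X := by
    gcongr
    rw [hC]
    nlinarith
  have hCY : (17 * CQ + Cn) * Y ≤ C * Y := by
    gcongr
    rw [hC]
    nlinarith
  nlinarith

end Pool.Agent.U546.TS
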