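import Pool.Agent.U546.TS.Per
import Pool.Agent.TH458.VC.Haus

/-!
# Sets whose translates have small VC-dimension have many almost periods
-/

set_option autoImplicit false

namespace Pool.Agent.U546.TS

open Finset

/-- the translates of `B` shatter no set of more than `d` elements -/
def VCle {N : ℕ} (B : Finset (ZMod N)) (d : ℕ) : Prop :=
  ∀ S : Finset (ZMod N), (∀ T ⊆ S, ∃ t : ZMod N, ∀ s ∈ S, (s ∈ T ↔ s + t ∈ B)) → S.card ≤ d

variable {N : ℕ} [NeZero N]

open scoped Classical in
/-- the translate `B - t` -/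
noncomputable def tsl (B : Finset (ZMod N)) (t : ZMod N) : Finset (ZMod N) :=
  univ.filter fun x => x + t ∈ B

theorem mem_tsl (B : Finset (ZMod N)) (t x : ZMod N) : x ∈ tsl B t ↔ x + t ∈ B := by
  unfold tsl
  rw [mem_filter]
  simp

theorem symmDiff_tsl (B : Finset (ZMod N)) (t u : ZMod N) :
    (symmDiff (tsl B t) (tsl B u)).card ≤ 2 * dst B (u - t) ∧
      2 * dst B (u - t) ≤ (symmDiff (tsl B t) (tsl B u)).card := by
  classical
  have h1 : (tsl B t \ tsl B u).card = dst B (u - t) := by
    unfold dst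
    refine card_bij (fun x _ => x + t) ?_ ?_ ?_
    · intro x hx
      rw [mem_sdiff, mem_tsl, mem_tsl] at hx
      rw [mem_filter]
      refine ⟨hx.1, ?_⟩
      have : x + t + (u - t) = x + u := by ring
      rw [this]
      exact hx.2
    · intro a _ b _ h
      exact add_left_injective t h
    · intro b hb
      rw [mem_filter] at hb
      refine ⟨b - t, ?_, by ring⟩
      rw [mem_sdiff, mem_tsl, mem_tsl]
      refine ⟨by rw [sub_add_cancel]; exact hb.1, ?_⟩
      have : b - t + u = b + (u - t) := by ring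
      rw [this]
      exact hb.2
  have h2 : (tsl B u \ tsl B t).card = dst B (u - t) := by
    rw [← dst_neg, neg_sub]
    unfold dst
    refine card_bij (fun x _ => x + u) ?_ ?_ ?_
    · intro x hx
      rw [mem_sdiff, mem_tsl, mem_tsl] at hx
      rw [mem_filter]
      refine ⟨hx.1, ?_⟩
      have : x + u + (t - u) = x + t := by ring
      rw [this]
      exact hx.2
    · intro a _ b _ h
      exact add_left_injective u h
    · intro b hb
      rw [mem_filter] at hb
      refine ⟨b - u, ?_, by ring⟩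
      rw [mem_sdiff, mem_tsl, mem_tsl]
      refine ⟨by rw [sub_add_cancel]; exact hb.1, ?_⟩
      have : b - u + t = b + (t - u) := by ring
      rw [this]
      exact hb.2
  have h3 : (symmDiff (tsl B t) (tsl B u)).card = (tsl B t \ tsl B u).card + (tsl B u \ tsl B t).card := by
    rw [symmDiff_def, sup_eq_union, card_union_of_disjoint]
    exact disjoint_sdiff_sdiff
  omega

theorem vcDim_le (B : Finset (ZMod N)) (d : ℕ) (h : VCle B d) (𝒜 : Finset (Finset (ZMod N)))
    (h𝒜 : ∀ X ∈ 𝒜, ∃ t, X = tsl B t) : 𝒜.vcDim ≤ d := by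
  classical
  unfold Finset.vcDim
  refine Finset.sup_le fun S hS => ?_
  rw [mem_shatterer] at hS
  refine h S fun T hT => ?_
  obtain ⟨u, hu, he⟩ := hS hT
  obtain ⟨t, rfl⟩ := h𝒜 u hu
  refine ⟨t, fun s hs => ?_⟩
  rw [← he, mem_inter, mem_tsl]
  exact ⟨fun h => h.2, fun h => ⟨hs, h⟩⟩

/-- **Many almost periods for small VC-dimension** -/
theorem vcP (B : Finset (ZMod N)) (d : ℕ) (h : VCle B d) (hB : B.Nonempty) (τ : ℝ) (hτ : 0 < τ)
    (hτ2 : τ ≤ 1 / 2) : (N : ℝ) ≤ (11 * N / (τ * B.card)) ^ d * (PP B τ).card := by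
  classical
  have hBc : (0 : ℝ) < B.card := by exact_mod_cast hB.card_pos
  have hNpos : (0 : ℝ) < N := by exact_mod_cast NeZero.pos N
  have hBN : (B.card : ℝ) ≤ N := by
    have := card_le_univ B
    rw [ZMod.card] at this
    exact_mod_cast this
  obtain ⟨r, hr⟩ : ∃ r : ℕ, r = ⌈2 * τ * B.card⌉₊ := ⟨_, rfl⟩
  have hr1 : 2 * τ * B.card ≤ r := by rw [hr]; exact Nat.le_ceil _
  have hr0 : 0 < r := by rw [hr]; exact Nat.ceil_pos.2 (by positivity)
  have hr0' : (0 : ℝ) < r := by exact_mod_cast hr0
  have hrN : r ≤ N := by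
    rw [hr]
    apply Nat.ceil_le.2
    nlinarith
  have hrN' : (r : ℝ) ≤ N := by exact_mod_cast hrN
  let P : Finset (ZMod N) → Prop := fun F => ∀ f ∈ F, ∀ g ∈ F, f ≠ g →
    r ≤ (symmDiff (tsl B f) (tsl B g)).card
  obtain ⟨F, hF, hmax⟩ := Finset.exists_max_image ((univ : Finset (Finset (ZMod N))).filter P) Finset.card
    ⟨∅, by simp [P]⟩
  rw [mem_filter] at hF
  obtain ⟨-, hFP⟩ := hF
  have hcov : ∀ u : ZMod N, ∃ f ∈ F, (symmDiff (tsl B f) (tsl B u)).card < r := by
    intro u
    by_cases huF : u ∈ F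
    · refine ⟨u, huF, ?_⟩
      rw [symmDiff_self]
      simpa using hr0
    · by_contra hcon
      push Not at hcon
      have hins : insert u F ∈ (univ : Finset (Finset (ZMod N))).filter P := by
        rw [mem_filter]
        refine ⟨mem_univ _, ?_⟩
        intro f hf g hg hfg
        rw [mem_insert] at hf hg
        rcases hf with rfl | hf <;> rcases hg with rfl | hg
        · exact absurd rfl hfg
        · rw [symmDiff_comm]
          exact hcon g hg
        · exact hcon f hf
        · exact hFP f hf g hg hfg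
      have := hmax _ hins
      rw [card_insert_of_notMem huF] at this
      omega
  -- the number of points of `F`
  have hinj : Set.InjOn (tsl B) (F : Set (ZMod N)) := by
    intro f hf g hg hfg
    by_contra hne
    have := hFP f hf g hg hne
    rw [hfg, symmDiff_self] at this
    simp at this
    omega
  have hFc : (F.card : ℝ) ≤ (22 * N / r) ^ d := by
    have h1 := Pool.Agent.TH458.VC.haus (ZMod N) (F.image (tsl B)) r hr0 (by
      intro X hX Y hY hXY
      obtain ⟨f, hf, rfl⟩ := mem_image.1 hX
      obtain ⟨g, hg, rfl⟩ := mem_image.1 hY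
      exact hFP f hf g hg fun h => hXY (by rw [h])) (by rw [ZMod.card]; exact hrN)
    rw [card_image_of_injOn hinj, ZMod.card] at h1
    refine h1.trans ?_
    apply pow_le_pow_right₀
    · rw [le_div_iff₀ hr0']
      linarith
    · refine vcDim_le B d h _ fun X hX => ?_
      obtain ⟨f, -, rfl⟩ := mem_image.1 hX
      exact ⟨f, rfl⟩
  -- the covering
  have hsub : (univ : Finset (ZMod N)) ⊆ F.biUnion fun f => (PP B τ).image fun t => t + f := by
    intro u _
    obtain ⟨f, hf, hfu⟩ := hcov u
    rw [mem_biUnion]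
    refine ⟨f, hf, ?_⟩
    rw [mem_image]
    refine ⟨u - f, ?_, by ring⟩
    rw [mem_PP]
    have h1 := (symmDiff_tsl B f u).2
    have h2 : 2 * dst B (u - f) < r := by omega
    rw [hr, Nat.lt_ceil] at h2
    push_cast at h2
    linarith
  have h2 : N ≤ F.card * (PP B τ).card := by
    have h3 := (card_le_card hsub).trans card_biUnion_le
    rw [card_univ, ZMod.card] at h3
    refine h3.trans ?_
    calc ∑ f ∈ F, ((PP B τ).image fun t => t + f).card ≤ ∑ _f ∈ F, (PP B τ).card :=
          sum_le_sum fun _ _ => card_image_le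
      _ = F.card * (PP B τ).card := by rw [sum_const, smul_eq_mul]
  have h3 : (N : ℝ) ≤ F.card * (PP B τ).card := by exact_mod_cast h2
  refine h3.trans (mul_le_mul_of_nonneg_right (hFc.trans ?_) (Nat.cast_nonneg _))
  apply pow_le_pow_left₀ (by positivity)
  rw [div_le_div_iff₀ hr0' (by positivity)]
  nlinarith

end Pool.Agent.U546.TS
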