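import Pool.Agent.U546.TS.Fin1
import Pool.Agent.U546.TS.VC
import Pool.Agent.N142.CD.FIN3

/-!
# The final forms
-/

set_option autoImplicit false

namespace Pool.Agent.U546.TS

open Finset Pool.Agent.TH858 Pool.Agent.N142.CD

/-- the radius parameter -/
theorem exists_R (x : ℝ) (hx : Real.log 2 ≤ x) : ∃ R : ℕ, 2 ≤ R ∧ 2 + x ≤ (R : ℝ) ∧ (R : ℝ) ≤ 6 * x := by
  have hlog2 := Real.log_two_gt_d9
  have hx0 : 0 < x := by linarith
  refine ⟨⌈x⌉₊ + 2, by omega, ?_, ?_⟩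
  · have := Nat.le_ceil x
    push_cast
    linarith
  · have := (Nat.ceil_lt_add_one hx0.le).le
    push_cast
    linarith

/-- the first summand of the bound -/
theorem main_term (x D : ℝ) (R : ℕ) (hx : Real.log 2 ≤ x) (hD : 1 ≤ D) (hR : 2 + x ≤ (R : ℝ)) :
    2 * D * x * (Real.log (2 + 2 * D * x / R) / Real.log (2 + R)) ≤
      4 * (D * Real.log (2 + D) * (x / Real.log (2 + x))) := by
  have hlog2 := Real.log_two_gt_d9
  have hx0 : 0 < x := by linarith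
  have hR0 : (0 : ℝ) < R := by linarith
  have h1 : 2 * D * x / R ≤ 2 * D := by
    rw [div_le_iff₀ hR0]
    nlinarith
  have h2 : Real.log (2 + 2 * D * x / R) ≤ 2 * Real.log (2 + D) := by
    have h3 : Real.log (2 + 2 * D * x / R) ≤ Real.log ((2 + D) ^ 2) := by
      apply Real.log_le_log
      · positivity
      · nlinarith
    rw [Real.log_pow] at h3
    push_cast at h3
    exact h3
  have h4 : Real.log (2 + x) ≤ Real.log (2 + R) := Real.log_le_log (by linarith) (by linarith)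
  have h5 : 0 < Real.log (2 + x) := Real.log_pos (by linarith)
  have h6 : 0 ≤ Real.log (2 + D) := Real.log_nonneg (by linarith)
  have h7 : Real.log (2 + 2 * D * x / R) / Real.log (2 + R) ≤ 2 * Real.log (2 + D) / Real.log (2 + x) := by
    gcongr
  calc 2 * D * x * (Real.log (2 + 2 * D * x / R) / Real.log (2 + R))
      ≤ 2 * D * x * (2 * Real.log (2 + D) / Real.log (2 + x)) := by gcongr
    _ = _ := by ring

/-- **The entropy criterion.** -/
theorem main2 : ∃ C : ℝ, 1 ≤ C ∧ ∀ (N : ℕ) [NeZero N] (A B : Finset (ZMod N)) (δ D : ℝ),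
    A.Nonempty → (A.card : ℝ) / N ≤ 1 / 2 →
    B.Nonempty → 0 < δ → δ ≤ 1 → δ * B.card ≤ ((A.filter fun a => a ∈ B).card : ℝ) → 1 ≤ D →
    (N : ℝ) ≤ Real.exp (D * Real.log (N / A.card)) *
      (PP B (δ ^ 3 / (C * (D * Real.log (N / A.card)) ^ 12))).card →
    ∃ (Γ : Finset (ZMod N)) (ε : ℝ), (Γ.card : ℝ) ≤
      C * (D * Real.log (2 + D) * (Real.log (N / A.card) / Real.log (2 + Real.log (N / A.card))) +
        Real.log (2 / δ) ^ 4 * (1 + Real.log (2 / δ) / Real.log (2 + Real.log (N / A.card)))) ∧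
      1 / (C * Real.log (N / A.card)) ≤ ε ∧
      ∀ y : ZMod N, (∀ g ∈ Γ, CB.nn (g * y) ≤ ε) →
        ∃ a₁ ∈ A, ∃ a₂ ∈ A, ∃ a₃ ∈ A, ∃ a₄ ∈ A, y = a₁ + a₂ - a₃ - a₄ := by
  obtain ⟨C₁, hC₁, h⟩ := main1
  refine ⟨8 ^ 12 * C₁, by nlinarith, ?_⟩
  intro N _ A B δ D hA hα hB hδ hδ1 hδB hD hP
  have hAc : (0 : ℝ) < A.card := by exact_mod_cast hA.card_pos
  have hNpos : (0 : ℝ) < N := by exact_mod_cast NeZero.pos N
  have hlog2 := Real.log_two_gt_d9
  have hx2 : Real.log 2 ≤ Real.log (N / A.card) := by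
    apply Real.log_le_log (by norm_num)
    rw [div_le_iff₀ hNpos] at hα
    rw [le_div_iff₀ hAc]
    linarith
  obtain ⟨x, hx⟩ : ∃ x : ℝ, x = Real.log (N / A.card) := ⟨_, rfl⟩
  rw [← hx] at hx2 hP ⊢
  have hx0 : 0 < x := by linarith
  obtain ⟨R, hR2, hRa, hRb⟩ := exists_R x hx2
  have hDx : x ≤ D * x := by nlinarith
  have hℓ : 1 ≤ 2 * D * x := by linarith
  have hR0 : (0 : ℝ) < R := by linarith
  have hL0 : 0 < Real.log (2 / δ) := Real.log_pos (by rw [lt_div_iff₀ hδ]; linarith)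
  obtain ⟨Γ, hΓ1, hΓ2⟩ := h N A B δ (2 * D * x) R hB hδ hδ1 hδB hℓ hR2 (by
    refine hP.trans ?_
    have h1 : PP B (δ ^ 3 / (8 ^ 12 * C₁ * (D * x) ^ 12)) ⊆ PP B (δ ^ 3 / (C₁ * (2 * D * x + R) ^ 12)) := by
      apply mono_PP
      apply div_le_div_of_nonneg_left (by positivity) (by positivity)
      have h2 : 2 * D * x + R ≤ 8 * (D * x) := by linarith
      calc C₁ * (2 * D * x + R) ^ 12 ≤ C₁ * (8 * (D * x)) ^ 12 := by gcongr
        _ = _ := by rw [mul_pow]; ring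
    have h3 : ((PP B (δ ^ 3 / (8 ^ 12 * C₁ * (D * x) ^ 12))).card : ℝ) ≤
        (PP B (δ ^ 3 / (C₁ * (2 * D * x + R) ^ 12))).card := by exact_mod_cast card_le_card h1
    have h4 : Real.exp (D * x) ≤ Real.exp (2 * D * x) := Real.exp_le_exp.2 (by linarith)
    gcongr)
  refine ⟨Γ, 1 / (8 * R), ?_, ?_, hΓ2⟩
  · refine hΓ1.trans ?_
    have h1 := main_term x D R hx2 hD hRa
    have h5 : 0 < Real.log (2 + x) := Real.log_pos (by linarith)
    have h6 : Real.log (2 + x) ≤ Real.log R := Real.log_le_log (by linarith) hRa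
    have h7 : Real.log (2 / δ) / Real.log R ≤ Real.log (2 / δ) / Real.log (2 + x) := by gcongr
    have h8 : 0 ≤ D * Real.log (2 + D) * (x / Real.log (2 + x)) := by
      have : 0 ≤ Real.log (2 + D) := Real.log_nonneg (by linarith)
      positivity
    have h9 : Real.log (2 / δ) ^ 4 * (1 + Real.log (2 / δ) / Real.log R) ≤
        Real.log (2 / δ) ^ 4 * (1 + Real.log (2 / δ) / Real.log (2 + x)) := by gcongr
    have h10 : 0 ≤ Real.log (2 / δ) ^ 4 * (1 + Real.log (2 / δ) / Real.log (2 + x)) := by positivity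
    calc C₁ * (2 * D * x * (Real.log (2 + 2 * D * x / R) / Real.log (2 + R)) +
          Real.log (2 / δ) ^ 4 * (1 + Real.log (2 / δ) / Real.log R))
        ≤ C₁ * (4 * (D * Real.log (2 + D) * (x / Real.log (2 + x))) +
          Real.log (2 / δ) ^ 4 * (1 + Real.log (2 / δ) / Real.log (2 + x))) := by gcongr
      _ ≤ C₁ * (8 ^ 12 * (D * Real.log (2 + D) * (x / Real.log (2 + x))) +
          8 ^ 12 * (Real.log (2 / δ) ^ 4 * (1 + Real.log (2 / δ) / Real.log (2 + x)))) := by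
          apply mul_le_mul_of_nonneg_left _ (by linarith)
          have e1 : (4 : ℝ) ≤ 8 ^ 12 := by norm_num
          have e2 : (1 : ℝ) ≤ 8 ^ 12 := by norm_num
          have e3 := mul_le_mul_of_nonneg_right e1 h8
          have e4 := mul_le_mul_of_nonneg_right e2 h10
          linarith
      _ = _ := by ring
  · apply one_div_le_one_div_of_le (by positivity)
    have : (8 : ℝ) * (6 * x) ≤ 8 ^ 12 * x := by linarith
    have h1 : (8 : ℝ) ^ 12 * x ≤ 8 ^ 12 * C₁ * x := by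
      have : 0 < (8 : ℝ) ^ 12 * x := by positivity
      nlinarith
    linarith

/-- **Difference sets.** -/
theorem diff1 : ∃ C : ℝ, 1 ≤ C ∧ ∀ (N : ℕ) [NeZero N] (A : Finset (ZMod N)) (ℓ : ℝ) (R : ℕ),
    A.Nonempty → 1 ≤ ℓ → 1 ≤ R →
    (N : ℝ) ≤ Real.exp ℓ * (PP A (1 / (C * (ℓ + R) ^ 9))).card →
    ∃ Γ : Finset (ZMod N), (Γ.card : ℝ) ≤ C * (1 + ℓ * (Real.log (2 + ℓ / R) / Real.log (2 + R))) ∧
      ∀ y : ZMod N, (∀ g ∈ Γ, CB.nn (g * y) ≤ 1 / (8 * R)) → ∃ a₁ ∈ A, ∃ a₂ ∈ A, y = a₁ - a₂ := by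
  classical
  obtain ⟨CQ, hCQ, hQ⟩ := bohrQ
  refine ⟨8 * CQ, by linarith, ?_⟩
  intro N _ A ℓ R hA hℓ hR hP
  have hR1 : (1 : ℝ) ≤ R := by exact_mod_cast hR
  have hAc : (0 : ℝ) < A.card := by exact_mod_cast hA.card_pos
  obtain ⟨τ, hτ⟩ : ∃ τ : ℝ, τ = 1 / (8 * CQ * (ℓ + R) ^ 9) := ⟨_, rfl⟩
  rw [← hτ] at hP
  have hτ0 : 0 ≤ τ := by rw [hτ]; positivity
  obtain ⟨K, hK⟩ : ∃ K : ℕ, K = ⌈CQ * ℓ ^ 7 * (ℓ + R) ^ 2⌉₊ := ⟨_, rfl⟩
  have hKa : CQ * ℓ ^ 7 * (ℓ + R) ^ 2 ≤ K := by rw [hK]; exact Nat.le_ceil _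
  have hbig : 1 ≤ CQ * ℓ ^ 7 * (ℓ + R) ^ 2 := by
    have h1 : 1 ≤ ℓ ^ 7 := one_le_pow₀ hℓ
    have h2 : 1 ≤ (ℓ + R) ^ 2 := one_le_pow₀ (by linarith)
    have h3 : 1 ≤ CQ * ℓ ^ 7 := by nlinarith
    nlinarith
  have hKb : (K : ℝ) ≤ 2 * CQ * (ℓ + R) ^ 9 := by
    have h1 := (Nat.ceil_lt_add_one (by linarith : 0 ≤ CQ * ℓ ^ 7 * (ℓ + R) ^ 2)).le
    rw [← hK] at h1
    have h2 : CQ * ℓ ^ 7 * (ℓ + R) ^ 2 ≤ CQ * (ℓ + R) ^ 7 * (ℓ + R) ^ 2 := by
      gcongr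
      linarith
    have h3 : CQ * (ℓ + R) ^ 7 * (ℓ + R) ^ 2 = CQ * (ℓ + R) ^ 9 := by ring
    linarith
  obtain ⟨Γ, hΓ1, hΓ2⟩ := hQ N (PP A τ) ℓ R K (nonempty_PP A hτ0) hℓ hP hR1 hKa
  refine ⟨Γ, hΓ1.trans ?_, ?_⟩
  · have h1 : 0 ≤ 1 + ℓ * (Real.log (2 + ℓ / R) / Real.log (2 + R)) := by
      have h1 : 0 ≤ Real.log (2 + ℓ / R) := by
        apply Real.log_nonneg
        have : 0 ≤ ℓ / R := by positivity
        linarith
      have h2 : 0 < Real.log (2 + (R : ℝ)) := Real.log_pos (by linarith)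
      positivity
    gcongr
    linarith
  · intro y hy
    have h1 := KK_sub A K τ y (hΓ2 y hy)
    rw [mem_PP] at h1
    have h2 : 2 * K * τ ≤ 1 / 2 := by
      have hR0 : (0 : ℝ) < ℓ + R := by linarith
      rw [hτ, mul_one_div, div_le_iff₀ (by positivity)]
      linarith
    have h3 : (dst A y : ℝ) < A.card := by
      calc (dst A y : ℝ) ≤ 2 * K * τ * A.card := h1
        _ ≤ 1 / 2 * A.card := by gcongr
        _ < A.card := by linarith
    have h4 : dst A y < A.card := by exact_mod_cast h3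
    have h5 := dst_compl A y
    have h6 : 0 < (A.filter fun b => b + y ∈ A).card := by omega
    obtain ⟨b, hb⟩ := card_pos.1 h6
    rw [mem_filter] at hb
    exact ⟨b + y, hb.2, b, hb.1, by ring⟩

end Pool.Agent.U546.TS
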