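import Pool.Agent.U546.TS.Fin2

/-!
# The final forms for sets of small VC-dimension
-/

set_option autoImplicit false

namespace Pool.Agent.U546.TS

open Finset Pool.Agent.TH858 Pool.Agent.N142.CD

/-- many almost periods for small VC-dimension, with the parameters of the criterion -/
theorem vc_entropy (E C₀ : ℝ) (hE : 1 ≤ E) (hC₀ : 1 ≤ C₀) : ∃ C₂ : ℝ, 3 ≤ C₂ ∧
    ∀ (N : ℕ) [NeZero N] (B : Finset (ZMod N)) (d : ℕ) (x δ : ℝ), B.Nonempty → VCle B d → 1 ≤ d →
    Real.log 2 ≤ x → (d : ℝ) ≤ Real.exp (E * x) → (N : ℝ) ≤ Real.exp (E * x) * B.card → 0 < δ → δ ≤ 1 →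
    1 ≤ Real.exp (E * x) * δ →
    (N : ℝ) ≤ Real.exp (C₂ * d * x) * (PP B (δ ^ 3 / (C₀ * (C₂ * d * x) ^ 12))).card := by
  obtain ⟨C₂, hC₂⟩ : ∃ C₂ : ℝ, C₂ = 1000 * (E + C₀) := ⟨_, rfl⟩
  have hC₂1 : 1 ≤ C₂ := by linarith
  refine ⟨C₂, by linarith, ?_⟩
  intro N _ B d x δ hB hVC hd hx hdE hBE hδ hδ1 hδE
  have hlog2 := Real.log_two_gt_d9
  have hlog2' := Real.log_two_lt_d9
  have hx0 : 0 < x := by linarith
  have hd1 : (1 : ℝ) ≤ d := by exact_mod_cast hd
  have hBc : (0 : ℝ) < B.card := by exact_mod_cast hB.card_pos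
  have hNpos : (0 : ℝ) < N := by exact_mod_cast NeZero.pos N
  have hC₂d : 2 ≤ C₂ * d * x := by
    have h1 : C₂ ≤ C₂ * d := by nlinarith
    have h2 : (1000 : ℝ) ≤ C₂ * d := by linarith
    nlinarith
  obtain ⟨τ, hτ⟩ : ∃ τ : ℝ, τ = δ ^ 3 / (C₀ * (C₂ * d * x) ^ 12) := ⟨_, rfl⟩
  rw [← hτ]
  have hτ0 : 0 < τ := by rw [hτ]; positivity
  have hδ3 : δ ^ 3 ≤ 1 := pow_le_one₀ hδ.le hδ1
  have hτ2 : τ ≤ 1 / 2 := by
    rw [hτ, div_le_iff₀ (by positivity)]
    have h1 : (2 : ℝ) ≤ (C₂ * d * x) ^ 12 := by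
      calc (2 : ℝ) ≤ 2 ^ 12 := by norm_num
        _ ≤ _ := pow_le_pow_left₀ (by norm_num) hC₂d _
    nlinarith
  have h1 := vcP B d hVC hB τ hτ0 hτ2
  refine h1.trans ?_
  apply mul_le_mul_of_nonneg_right _ (Nat.cast_nonneg _)
  have key : 11 * (N : ℝ) / (τ * B.card) ≤ Real.exp (C₂ * x) := by
    have e1 : 11 * (N : ℝ) / (τ * B.card) = 11 * (N / B.card) * C₀ * (1 / δ) ^ 3 * (C₂ * d * x) ^ 12 := by
      rw [hτ]
      field_simp
    have f1 : (11 : ℝ) ≤ Real.exp (5 * x) := by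
      have h2 : Real.exp (5 * Real.log 2) ≤ Real.exp (5 * x) := Real.exp_le_exp.2 (by linarith)
      have h3 : Real.exp (5 * Real.log 2) = 32 := by
        rw [show (5 : ℝ) * Real.log 2 = ((5 : ℕ) : ℝ) * Real.log 2 by norm_num, Real.exp_nat_mul,
          Real.exp_log (by norm_num)]
        norm_num
      linarith
    have f2 : (N : ℝ) / B.card ≤ Real.exp (E * x) := by
      rw [div_le_iff₀ hBc]
      exact hBE
    have f3 : C₀ ≤ Real.exp (2 * C₀ * x) := by
      have h2 := Real.add_one_le_exp C₀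
      have h3 : Real.exp C₀ ≤ Real.exp (2 * C₀ * x) := Real.exp_le_exp.2 (by nlinarith)
      linarith
    have f4 : (1 / δ) ^ 3 ≤ Real.exp (3 * E * x) := by
      have h2 : 1 / δ ≤ Real.exp (E * x) := by
        rw [div_le_iff₀ hδ]
        exact hδE
      calc (1 / δ) ^ 3 ≤ Real.exp (E * x) ^ 3 := pow_le_pow_left₀ (by positivity) h2 3
        _ = Real.exp (3 * E * x) := by rw [← Real.exp_nat_mul]; congr 1; push_cast; ring
    have hlogC₂ : Real.log C₂ ≤ 7 + (E + C₀) := by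
      rw [hC₂, Real.log_mul (by norm_num) (by linarith)]
      have h2 : Real.log 1000 ≤ 7 := by
        have h3 : Real.log 1000 ≤ Real.log ((2 : ℝ) ^ 10) := Real.log_le_log (by norm_num) (by norm_num)
        rw [Real.log_pow] at h3
        push_cast at h3
        linarith
      have h4 := Real.log_le_sub_one_of_pos (by linarith : 0 < E + C₀)
      linarith
    have f5 : (C₂ * d * x) ^ 12 ≤ Real.exp (18 * (7 + (E + C₀)) * x + 12 * E * x + 12 * x) := by
      have h2 : C₂ ≤ Real.exp (7 + (E + C₀)) := by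
        rw [← Real.log_le_iff_le_exp (by linarith)]
        exact hlogC₂
      have h3 : Real.exp (7 + (E + C₀)) ≤ Real.exp (3 / 2 * (7 + (E + C₀)) * x) :=
        Real.exp_le_exp.2 (by nlinarith)
      have h4 : x ≤ Real.exp x := by linarith [Real.add_one_le_exp x]
      calc (C₂ * d * x) ^ 12 ≤ (Real.exp (3 / 2 * (7 + (E + C₀)) * x) * Real.exp (E * x) * Real.exp x) ^ 12 := by
            gcongr
            exact h2.trans h3
        _ = _ := by
            rw [← Real.exp_add, ← Real.exp_add, ← Real.exp_nat_mul]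
            congr 1
            push_cast
            ring
    rw [e1]
    calc 11 * ((N : ℝ) / B.card) * C₀ * (1 / δ) ^ 3 * (C₂ * d * x) ^ 12
        ≤ Real.exp (5 * x) * Real.exp (E * x) * Real.exp (2 * C₀ * x) * Real.exp (3 * E * x) *
            Real.exp (18 * (7 + (E + C₀)) * x + 12 * E * x + 12 * x) := by gcongr
      _ = Real.exp ((143 + 34 * E + 20 * C₀) * x) := by
          rw [← Real.exp_add, ← Real.exp_add, ← Real.exp_add, ← Real.exp_add]
          congr 1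
          ring
      _ ≤ Real.exp (C₂ * x) := by
          apply Real.exp_le_exp.2
          apply mul_le_mul_of_nonneg_right _ hx0.le
          rw [hC₂]
          linarith
  calc (11 * (N : ℝ) / (τ * B.card)) ^ d ≤ Real.exp (C₂ * x) ^ d :=
        pow_le_pow_left₀ (by positivity) key d
    _ = Real.exp (C₂ * d * x) := by
        rw [← Real.exp_nat_mul]
        congr 1
        ring

/-- `D log (2 + D)` for `D = C₂ d` -/
theorem DlogD (C₂ : ℝ) (hC₂ : 1 ≤ C₂) (d : ℕ) (hd : 1 ≤ d) :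
    C₂ * d * Real.log (2 + C₂ * d) ≤ C₂ * (2 * C₂ + 2) * (d * Real.log (1 + d)) := by
  have hlog2 := Real.log_two_gt_d9
  have hd1 : (1 : ℝ) ≤ d := by exact_mod_cast hd
  have hl : Real.log 2 ≤ Real.log (1 + d) := Real.log_le_log (by norm_num) (by linarith)
  have h1 : Real.log (2 + C₂ * d) ≤ Real.log C₂ + Real.log (2 + d) := by
    rw [← Real.log_mul (by linarith) (by linarith)]
    apply Real.log_le_log (by positivity)
    nlinarith
  have h2 : Real.log (2 + (d : ℝ)) ≤ 2 * Real.log (1 + d) := by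
    have h3 : Real.log (2 + (d : ℝ)) ≤ Real.log ((1 + d) ^ 2) := Real.log_le_log (by positivity) (by nlinarith)
    rw [Real.log_pow] at h3
    push_cast at h3
    exact h3
  have h4 : Real.log C₂ ≤ C₂ := by
    have := Real.log_le_sub_one_of_pos (by linarith : 0 < C₂)
    linarith
  have h5 : C₂ ≤ 2 * C₂ * Real.log (1 + d) := by nlinarith
  have h6 : Real.log (2 + C₂ * d) ≤ (2 * C₂ + 2) * Real.log (1 + d) := by linarith
  calc C₂ * d * Real.log (2 + C₂ * d) ≤ C₂ * d * ((2 * C₂ + 2) * Real.log (1 + d)) := by gcongr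
    _ = _ := by ring

/-- **Dense subsets of sets of small VC-dimension.** -/
theorem main3 (E : ℝ) (hE : 1 ≤ E) : ∃ C : ℝ, 1 ≤ C ∧ ∀ (N : ℕ) [NeZero N] (A B : Finset (ZMod N)) (δ : ℝ) (d : ℕ),
    A.Nonempty → (A.card : ℝ) / N ≤ 1 / 2 →
    B.Nonempty → VCle B d → 1 ≤ d → (d : ℝ) ≤ Real.exp (E * Real.log (N / A.card)) →
    (N : ℝ) ≤ Real.exp (E * Real.log (N / A.card)) * B.card →
    0 < δ → δ ≤ 1 → 1 ≤ Real.exp (E * Real.log (N / A.card)) * δ →
    δ * B.card ≤ ((A.filter fun a => a ∈ B).card : ℝ) →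
    ∃ (Γ : Finset (ZMod N)) (ε : ℝ), (Γ.card : ℝ) ≤
      C * (d * Real.log (1 + d) * (Real.log (N / A.card) / Real.log (2 + Real.log (N / A.card))) +
        Real.log (2 / δ) ^ 4 * (1 + Real.log (2 / δ) / Real.log (2 + Real.log (N / A.card)))) ∧
      1 / (C * Real.log (N / A.card)) ≤ ε ∧
      ∀ y : ZMod N, (∀ g ∈ Γ, CB.nn (g * y) ≤ ε) →
        ∃ a₁ ∈ A, ∃ a₂ ∈ A, ∃ a₃ ∈ A, ∃ a₄ ∈ A, y = a₁ + a₂ - a₃ - a₄ := by
  obtain ⟨C₁, hC₁, h⟩ := main2
  obtain ⟨C₂, hC₂3, hv⟩ := vc_entropy E C₁ hE hC₁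
  have hC₂ : 1 ≤ C₂ := by linarith
  have hC₂2 : 1 ≤ C₂ * (2 * C₂ + 2) := by nlinarith
  refine ⟨C₁ * (C₂ * (2 * C₂ + 2)), by nlinarith, ?_⟩
  intro N _ A B δ d hA hα hB hVC hd hdE hBE hδ hδ1 hδE hδB
  have hAc : (0 : ℝ) < A.card := by exact_mod_cast hA.card_pos
  have hNpos : (0 : ℝ) < N := by exact_mod_cast NeZero.pos N
  have hlog2 := Real.log_two_gt_d9
  have hx2 : Real.log 2 ≤ Real.log (N / A.card) := by
    apply Real.log_le_log (by norm_num)
    rw [div_le_iff₀ hNpos] at hα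
    rw [le_div_iff₀ hAc]
    linarith
  obtain ⟨x, hx⟩ : ∃ x : ℝ, x = Real.log (N / A.card) := ⟨_, rfl⟩
  have h' := h N A B δ (C₂ * d) hA hα hB hδ hδ1 hδB
  rw [← hx] at hx2 hdE hBE hδE h' ⊢
  have hx0 : 0 < x := by linarith
  have hd1 : (1 : ℝ) ≤ d := by exact_mod_cast hd
  obtain ⟨Γ, ε, h1, h2, h3⟩ := h' (by nlinarith) (hv N B d x δ hB hVC hd hx2 hdE hBE hδ hδ1 hδE)
  have hL0 : 0 < Real.log (2 / δ) := Real.log_pos (by rw [lt_div_iff₀ hδ]; linarith)
  have h5 : 0 < Real.log (2 + x) := Real.log_pos (by linarith)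
  refine ⟨Γ, ε, ?_, ?_, h3⟩
  · refine h1.trans ?_
    have h6 := DlogD C₂ hC₂ d hd
    have h7 : 0 ≤ x / Real.log (2 + x) := by positivity
    have h8 : C₂ * d * Real.log (2 + C₂ * d) * (x / Real.log (2 + x)) ≤
        C₂ * (2 * C₂ + 2) * (d * Real.log (1 + d) * (x / Real.log (2 + x))) := by
      calc C₂ * d * Real.log (2 + C₂ * d) * (x / Real.log (2 + x)) ≤
            C₂ * (2 * C₂ + 2) * (d * Real.log (1 + d)) * (x / Real.log (2 + x)) := by gcongr
        _ = _ := by ring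
    have h9 : 0 ≤ Real.log (2 / δ) ^ 4 * (1 + Real.log (2 / δ) / Real.log (2 + x)) := by positivity
    have h10 : Real.log (2 / δ) ^ 4 * (1 + Real.log (2 / δ) / Real.log (2 + x)) ≤
        C₂ * (2 * C₂ + 2) * (Real.log (2 / δ) ^ 4 * (1 + Real.log (2 / δ) / Real.log (2 + x))) := by nlinarith
    calc C₁ * (C₂ * d * Real.log (2 + C₂ * d) * (x / Real.log (2 + x)) +
          Real.log (2 / δ) ^ 4 * (1 + Real.log (2 / δ) / Real.log (2 + x)))
        ≤ C₁ * (C₂ * (2 * C₂ + 2) * (d * Real.log (1 + d) * (x / Real.log (2 + x))) +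
          C₂ * (2 * C₂ + 2) * (Real.log (2 / δ) ^ 4 * (1 + Real.log (2 / δ) / Real.log (2 + x)))) := by
          gcongr
      _ = _ := by ring
  · refine le_trans ?_ h2
    apply one_div_le_one_div_of_le (by positivity)
    have : C₁ * x * 1 ≤ C₁ * x * (C₂ * (2 * C₂ + 2)) := by gcongr
    linarith

/-- elementary inequalities for `x ≥ log 2` -/
theorem log_facts (x : ℝ) (hx : Real.log 2 ≤ x) : Real.log (2 + x) ≤ 3 / 2 * x ∧ 1 / 2 ≤ Real.log (2 + x) := by
  have hlog2 := Real.log_two_gt_d9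
  constructor
  · have h1 : 2 + x = 2 * (1 + x / 2) := by ring
    rw [h1, Real.log_mul (by norm_num) (by linarith)]
    have h2 := Real.log_le_sub_one_of_pos (by linarith : 0 < 1 + x / 2)
    linarith
  · have : Real.log 2 ≤ Real.log (2 + x) := Real.log_le_log (by norm_num) (by linarith)
    linarith

/-- **The conclusion of Q1 for dense subsets of sets of small VC-dimension.** -/
theorem main4 (E : ℝ) (hE : 1 ≤ E) : ∃ C : ℝ, 1 ≤ C ∧ ∀ (N : ℕ) [NeZero N] (A B : Finset (ZMod N)) (δ : ℝ) (d : ℕ),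
    A.Nonempty → (A.card : ℝ) / N ≤ 1 / 2 →
    B.Nonempty → VCle B d → 1 ≤ d →
    d * Real.log (1 + d) ≤ E * Real.log (2 + Real.log (N / A.card)) →
    (N : ℝ) ≤ Real.exp (E * Real.log (N / A.card)) * B.card →
    0 < δ → δ ≤ 1 → Real.log (2 / δ) ^ 5 ≤ E * (Real.log (N / A.card) * Real.log (2 + Real.log (N / A.card))) →
    δ * B.card ≤ ((A.filter fun a => a ∈ B).card : ℝ) →
    ∃ (Γ : Finset (ZMod N)) (ε : ℝ), (Γ.card : ℝ) ≤ C * Real.log (N / A.card) ∧
      1 / (C * Real.log (N / A.card)) ≤ ε ∧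
      ∀ y : ZMod N, (∀ g ∈ Γ, CB.nn (g * y) ≤ ε) →
        ∃ a₁ ∈ A, ∃ a₂ ∈ A, ∃ a₃ ∈ A, ∃ a₄ ∈ A, y = a₁ + a₂ - a₃ - a₄ := by
  obtain ⟨C₁, hC₁, h⟩ := main3 (5 * E) (by linarith)
  refine ⟨C₁ * (E + 12501 * (2 + E)), by nlinarith, ?_⟩
  intro N _ A B δ d hA hα hB hVC hd hdE hBE hδ hδ1 hδE hδB
  have hAc : (0 : ℝ) < A.card := by exact_mod_cast hA.card_pos
  have hNpos : (0 : ℝ) < N := by exact_mod_cast NeZero.pos N
  have hlog2 := Real.log_two_gt_d9
  have hlog2' := Real.log_two_lt_d9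
  have hx2 : Real.log 2 ≤ Real.log (N / A.card) := by
    apply Real.log_le_log (by norm_num)
    rw [div_le_iff₀ hNpos] at hα
    rw [le_div_iff₀ hAc]
    linarith
  obtain ⟨x, hx⟩ : ∃ x : ℝ, x = Real.log (N / A.card) := ⟨_, rfl⟩
  have h' := h N A B δ d hA hα hB hVC hd
  rw [← hx] at hx2 hdE hBE hδE h' ⊢
  have hx0 : 0 < x := by linarith
  have hd1 : (1 : ℝ) ≤ d := by exact_mod_cast hd
  obtain ⟨hlx1, hlx2⟩ := log_facts x hx2
  obtain ⟨L, hL⟩ : ∃ L : ℝ, L = Real.log (2 / δ) := ⟨_, rfl⟩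
  rw [← hL] at hδE h'
  have hL0 : 0 < L := by rw [hL]; exact Real.log_pos (by rw [lt_div_iff₀ hδ]; linarith)
  have hld : Real.log 2 ≤ Real.log (1 + d) := Real.log_le_log (by norm_num) (by linarith)
  have hdx : (d : ℝ) ≤ Real.exp (5 * E * x) := by
    have h1 : (d : ℝ) * (1 / 2) ≤ d * Real.log (1 + d) := by gcongr; linarith
    have h2 : (d : ℝ) ≤ 3 * E * x := by nlinarith
    have h3 := Real.add_one_le_exp (5 * E * x)
    have h4 : 0 < E * x := by positivity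
    linarith
  have hBx : (N : ℝ) ≤ Real.exp (5 * E * x) * B.card := by
    refine hBE.trans ?_
    have : Real.exp (E * x) ≤ Real.exp (5 * E * x) := Real.exp_le_exp.2 (by nlinarith)
    gcongr
  have hLx : L ≤ 5 * E * x := by
    by_contra hcon
    push Not at hcon
    have hEx : 0 < 5 * E * x := by positivity
    have h1 : (5 * E * x) ^ 5 < L ^ 5 := pow_lt_pow_left₀ hcon hEx.le (by norm_num)
    have h2 : E * (x * Real.log (2 + x)) ≤ E * (x * (3 / 2 * x)) := by gcongr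
    have h3 : (5 * E * x) ^ 5 < E * (x * (3 / 2 * x)) := by linarith
    have h4 : (5 * E * x) ^ 5 = (E * (x * (3 / 2 * x))) * (6250 / 3 * E ^ 4 * x ^ 3) := by ring
    have h5 : 1 ≤ 6250 / 3 * E ^ 4 * x ^ 3 := by
      have h6 : 1 ≤ E ^ 4 := one_le_pow₀ hE
      have h7 : (1 / 2 : ℝ) ^ 3 ≤ x ^ 3 := pow_le_pow_left₀ (by norm_num) (by linarith) 3
      have h8 : (1 / 2 : ℝ) ^ 3 = 1 / 8 := by norm_num
      rw [h8] at h7
      nlinarith
    rw [h4] at h3
    have h9 : 0 < E * (x * (3 / 2 * x)) := by positivity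
    nlinarith
  have hδx : 1 ≤ Real.exp (5 * E * x) * δ := by
    have h1 : Real.exp L ≤ Real.exp (5 * E * x) := Real.exp_le_exp.2 hLx
    have h2 : Real.exp L = 2 / δ := by rw [hL, Real.exp_log (by positivity)]
    rw [h2, div_le_iff₀ hδ] at h1
    linarith
  obtain ⟨Γ, ε, h1, h2, h3⟩ := h' hdx hBx hδ hδ1 hδx hδB
  refine ⟨Γ, ε, ?_, ?_, h3⟩
  · refine h1.trans ?_
    have hlx0 : 0 < Real.log (2 + x) := by linarith
    have e1 : d * Real.log (1 + d) * (x / Real.log (2 + x)) ≤ E * x := by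
      calc d * Real.log (1 + d) * (x / Real.log (2 + x)) ≤ E * Real.log (2 + x) * (x / Real.log (2 + x)) := by
            gcongr
        _ = E * x := by field_simp
    have e2 := simplify x L hx2 hL0
    have e3 : (x + L ^ 5) / Real.log (2 + x) ≤ (2 + E) * x := by
      rw [div_le_iff₀ hlx0]
      nlinarith
    have e4 : 0 ≤ x / Real.log (2 + x) := by positivity
    calc C₁ * (d * Real.log (1 + d) * (x / Real.log (2 + x)) + L ^ 4 * (1 + L / Real.log (2 + x)))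
        ≤ C₁ * (E * x + 12501 * ((2 + E) * x)) := by
          apply mul_le_mul_of_nonneg_left _ (by linarith)
          nlinarith
      _ = _ := by ring
  · refine le_trans ?_ h2
    apply one_div_le_one_div_of_le (by positivity)
    have h4 : C₁ * x * 1 ≤ C₁ * x * (E + 12501 * (2 + E)) := by
      apply mul_le_mul_of_nonneg_left _ (by positivity)
      linarith
    linarith

/-- **Difference sets of sets of small VC-dimension.** -/
theorem diff2 (E : ℝ) (hE : 1 ≤ E) : ∃ C : ℝ, 1 ≤ C ∧ ∀ (N : ℕ) [NeZero N] (A : Finset (ZMod N)) (d : ℕ),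
    A.Nonempty → (A.card : ℝ) / N ≤ 1 / 2 → VCle A d → 1 ≤ d →
    (d : ℝ) ≤ Real.exp (E * Real.log (N / A.card)) →
    ∃ (Γ : Finset (ZMod N)) (ε : ℝ), (Γ.card : ℝ) ≤
      C * (d * Real.log (1 + d) * (Real.log (N / A.card) / Real.log (2 + Real.log (N / A.card)))) ∧
      1 / (C * Real.log (N / A.card)) ≤ ε ∧
      ∀ y : ZMod N, (∀ g ∈ Γ, CB.nn (g * y) ≤ ε) → ∃ a₁ ∈ A, ∃ a₂ ∈ A, y = a₁ - a₂ := by
  obtain ⟨C₁, hC₁, h⟩ := diff1
  obtain ⟨C₂, hC₂3, hv⟩ := vc_entropy E (C₁ * 8 ^ 9) hE (by nlinarith)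
  have hC₂ : 1 ≤ C₂ := by linarith
  have hC₂2 : 1 ≤ C₂ * (2 * C₂ + 2) := by nlinarith
  refine ⟨C₁ * (48 + 4 * (C₂ * (2 * C₂ + 2))), by nlinarith, ?_⟩
  intro N _ A d hA hα hVC hd hdE
  have hAc : (0 : ℝ) < A.card := by exact_mod_cast hA.card_pos
  have hNpos : (0 : ℝ) < N := by exact_mod_cast NeZero.pos N
  have hlog2 := Real.log_two_gt_d9
  have hx2 : Real.log 2 ≤ Real.log (N / A.card) := by
    apply Real.log_le_log (by norm_num)
    rw [div_le_iff₀ hNpos] at hα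
    rw [le_div_iff₀ hAc]
    linarith
  obtain ⟨x, hx⟩ : ∃ x : ℝ, x = Real.log (N / A.card) := ⟨_, rfl⟩
  have hexpx : Real.exp x = N / A.card := by rw [hx, Real.exp_log (by positivity)]
  rw [← hx] at hx2 hdE ⊢
  have hx0 : 0 < x := by linarith
  have hd1 : (1 : ℝ) ≤ d := by exact_mod_cast hd
  obtain ⟨hlx1, hlx2⟩ := log_facts x hx2
  obtain ⟨R, hR2, hRa, hRb⟩ := exists_R x hx2
  have hR0 : (0 : ℝ) < R := by linarith
  have hAE : (N : ℝ) ≤ Real.exp (E * x) * A.card := by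
    have h1 : Real.exp x ≤ Real.exp (E * x) := Real.exp_le_exp.2 (by nlinarith)
    rw [hexpx, div_le_iff₀ hAc] at h1
    exact h1
  have hv' := hv N A d x 1 hA hVC hd hx2 hdE hAE one_pos le_rfl (by
    rw [mul_one]; exact Real.one_le_exp (by positivity))
  obtain ⟨D, hD⟩ : ∃ D : ℝ, D = C₂ * d := ⟨_, rfl⟩
  rw [← hD] at hv'
  have hD1 : 1 ≤ D := by rw [hD]; nlinarith
  have hDx : x ≤ D * x := by nlinarith
  obtain ⟨Γ, hΓ1, hΓ2⟩ := h N A (2 * D * x) R hA (by linarith) (by omega) (by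
    refine hv'.trans ?_
    have h1 : PP A (1 ^ 3 / (C₁ * 8 ^ 9 * (D * x) ^ 12)) ⊆ PP A (1 / (C₁ * (2 * D * x + R) ^ 9)) := by
      apply mono_PP
      rw [one_pow]
      apply one_div_le_one_div_of_le (by positivity)
      have h2 : 2 * D * x + R ≤ 8 * (D * x) := by linarith
      have h5 : (1 : ℝ) ≤ D * x := by
        have hD3 : 3 ≤ D := by rw [hD]; nlinarith
        nlinarith
      calc C₁ * (2 * D * x + R) ^ 9 ≤ C₁ * (8 * (D * x)) ^ 9 := by gcongr
        _ = C₁ * 8 ^ 9 * (D * x) ^ 9 := by rw [mul_pow]; ring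
        _ ≤ C₁ * 8 ^ 9 * (D * x) ^ 12 := by
            gcongr
            norm_num
    have h3 : ((PP A (1 ^ 3 / (C₁ * 8 ^ 9 * (D * x) ^ 12))).card : ℝ) ≤
        (PP A (1 / (C₁ * (2 * D * x + R) ^ 9))).card := by exact_mod_cast card_le_card h1
    have h4 : Real.exp (D * x) ≤ Real.exp (2 * D * x) := Real.exp_le_exp.2 (by linarith)
    gcongr)
  refine ⟨Γ, 1 / (8 * R), ?_, ?_, hΓ2⟩
  · refine hΓ1.trans ?_
    have h1 := main_term x D R hx2 hD1 hRa
    have h6 := DlogD C₂ hC₂ d hd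
    rw [← hD] at h6
    have hlx0 : 0 < Real.log (2 + x) := by linarith
    have h7 : 0 ≤ x / Real.log (2 + x) := by positivity
    have h8 : D * Real.log (2 + D) * (x / Real.log (2 + x)) ≤
        C₂ * (2 * C₂ + 2) * (d * Real.log (1 + d) * (x / Real.log (2 + x))) := by
      calc D * Real.log (2 + D) * (x / Real.log (2 + x)) ≤
            C₂ * (2 * C₂ + 2) * (d * Real.log (1 + d)) * (x / Real.log (2 + x)) := by gcongr
        _ = _ := by ring
    have hld : Real.log 2 ≤ Real.log (1 + d) := Real.log_le_log (by norm_num) (by linarith)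
    have h9 : 1 ≤ 48 * (d * Real.log (1 + d) * (x / Real.log (2 + x))) := by
      have h10 : 2 / 3 ≤ x / Real.log (2 + x) := by
        rw [le_div_iff₀ hlx0]
        linarith
      have h11 : 1 / 2 ≤ d * Real.log (1 + d) := by nlinarith
      nlinarith
    calc C₁ * (1 + 2 * D * x * (Real.log (2 + 2 * D * x / R) / Real.log (2 + R)))
        ≤ C₁ * (48 * (d * Real.log (1 + d) * (x / Real.log (2 + x))) +
          4 * (C₂ * (2 * C₂ + 2) * (d * Real.log (1 + d) * (x / Real.log (2 + x))))) := by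
          apply mul_le_mul_of_nonneg_left _ (by linarith)
          linarith
      _ = _ := by ring
  · apply one_div_le_one_div_of_le (by positivity)
    have h4 : C₁ * x * 48 ≤ C₁ * x * (48 + 4 * (C₂ * (2 * C₂ + 2))) := by
      apply mul_le_mul_of_nonneg_left _ (by positivity)
      linarith
    have h5 : 1 * x * 48 ≤ C₁ * x * 48 := by gcongr
    linarith

end Pool.Agent.U546.TS
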