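import Pool.Agent.N142.CD.Stm

/-!
# The almost periods of a finite set, and regular scales
-/

set_option autoImplicit false

namespace Pool.Agent.U546.TS

open Finset

variable {N : ℕ}

/-- the number of elements of `B` that leave `B` under the shift by `t` -/
def dst (B : Finset (ZMod N)) (t : ZMod N) : ℕ := (B.filter fun b => b + t ∉ B).card

theorem dst_zero (B : Finset (ZMod N)) : dst B 0 = 0 := by
  unfold dst
  rw [card_eq_zero, filter_eq_empty_iff]
  intro b hb
  rw [add_zero]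
  exact fun h => h hb

theorem dst_compl (B : Finset (ZMod N)) (t : ZMod N) :
    (B.filter fun b => b + t ∈ B).card + dst B t = B.card :=
  card_filter_add_card_filter_not _

theorem dst_neg (B : Finset (ZMod N)) (t : ZMod N) : dst B (-t) = dst B t := by
  have h1 := dst_compl B t
  have h2 := dst_compl B (-t)
  have h3 : (B.filter fun b => b + t ∈ B).card = (B.filter fun b => b + -t ∈ B).card := by
    refine card_bij (fun b _ => b + t) ?_ ?_ ?_
    · intro b hb
      rw [mem_filter] at hb ⊢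
      exact ⟨hb.2, by rw [add_neg_cancel_right]; exact hb.1⟩
    · intro a _ b _ h
      exact add_left_injective t h
    · intro b hb
      rw [mem_filter] at hb
      exact ⟨b + -t, by rw [mem_filter]; exact ⟨hb.2, by rw [neg_add_cancel_right]; exact hb.1⟩,
        by rw [neg_add_cancel_right]⟩
  omega

theorem dst_add (B : Finset (ZMod N)) (s t : ZMod N) : dst B (s + t) ≤ dst B s + dst B t := by
  classical
  unfold dst
  have h1 : (B.filter fun b => b + (s + t) ∉ B) ⊆
      (B.filter fun b => b + s ∉ B) ∪ (B.filter fun b => b + s ∈ B ∧ b + s + t ∉ B) := by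
    intro b hb
    rw [mem_filter] at hb
    rw [mem_union, mem_filter, mem_filter]
    by_cases h : b + s ∈ B
    · exact Or.inr ⟨hb.1, h, by rw [add_assoc]; exact hb.2⟩
    · exact Or.inl ⟨hb.1, h⟩
  have h2 : (B.filter fun b => b + s ∈ B ∧ b + s + t ∉ B).card ≤
      (B.filter fun b => b + t ∉ B).card := by
    refine card_le_card_of_injOn (fun b => b + s) ?_ ?_
    · intro b hb
      rw [mem_coe, mem_filter] at hb ⊢
      exact ⟨hb.2.1, hb.2.2⟩
    · intro a _ b _ h
      exact add_left_injective s h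
  exact (card_le_card h1).trans ((card_union_le _ _).trans (by omega))

variable [NeZero N]

open scoped Classical in
/-- the `τ`-almost periods of `B` -/
noncomputable def PP (B : Finset (ZMod N)) (τ : ℝ) : Finset (ZMod N) :=
  univ.filter fun t => (dst B t : ℝ) ≤ τ * B.card

theorem mem_PP (B : Finset (ZMod N)) (τ : ℝ) (t : ZMod N) :
    t ∈ PP B τ ↔ (dst B t : ℝ) ≤ τ * B.card := by
  unfold PP
  rw [mem_filter]
  simp

theorem zero_mem_PP (B : Finset (ZMod N)) {τ : ℝ} (hτ : 0 ≤ τ) : (0 : ZMod N) ∈ PP B τ := by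
  rw [mem_PP, dst_zero]
  push_cast
  positivity

theorem neg_mem_PP (B : Finset (ZMod N)) (τ : ℝ) (t : ZMod N) (h : t ∈ PP B τ) : -t ∈ PP B τ := by
  rw [mem_PP] at h ⊢
  rw [dst_neg]
  exact h

theorem add_mem_PP (B : Finset (ZMod N)) (σ τ : ℝ) (s t : ZMod N) (hs : s ∈ PP B σ)
    (ht : t ∈ PP B τ) : s + t ∈ PP B (σ + τ) := by
  rw [mem_PP] at hs ht ⊢
  have : ((dst B (s + t) : ℕ) : ℝ) ≤ dst B s + dst B t := by exact_mod_cast dst_add B s t
  linarith

theorem mono_PP (B : Finset (ZMod N)) {σ τ : ℝ} (h : σ ≤ τ) : PP B σ ⊆ PP B τ := by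
  intro t ht
  rw [mem_PP] at ht ⊢
  have : σ * B.card ≤ τ * B.card := mul_le_mul_of_nonneg_right h (Nat.cast_nonneg _)
  linarith

theorem sum_mem_PP (B : Finset (ZMod N)) (τ : ℝ) : ∀ (m : ℕ) (s : Fin m → ZMod N),
    (∀ i, s i ∈ PP B τ) → ∑ i, s i ∈ PP B (m * τ) := by
  intro m
  induction m with
  | zero =>
    intro s _
    simp only [univ_eq_empty, sum_empty, CharP.cast_eq_zero, zero_mul]
    exact zero_mem_PP B le_rfl
  | succ m ih =>
    intro s hs
    rw [Fin.sum_univ_castSucc]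
    have h1 := ih (fun i => s (Fin.castSucc i)) fun i => hs _
    have h2 := add_mem_PP B _ _ _ _ h1 (hs (Fin.last m))
    have : (m : ℝ) * τ + τ = ((m + 1 : ℕ) : ℝ) * τ := by push_cast; ring
    rw [this] at h2
    exact h2

theorem nonempty_PP (B : Finset (ZMod N)) {τ : ℝ} (hτ : 0 ≤ τ) : (PP B τ).Nonempty :=
  ⟨0, zero_mem_PP B hτ⟩

/-- a regular scale between `r` and `2 r` -/
theorem reg (f : ℝ → ℝ) (r η : ℝ) (M : ℕ) (hM : 1 ≤ M) (hη : 0 ≤ η)
    (h : f (2 * r) ≤ (1 + η) ^ M * f r) :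
    ∃ j : ℕ, j < M ∧ f (r + (j + 1) * (r / M)) ≤ (1 + η) * f (r + j * (r / M)) := by
  by_contra hcon
  push Not at hcon
  have hM0 : (0 : ℝ) < M := by exact_mod_cast hM
  have key : ∀ j : ℕ, j + 1 ≤ M → (1 + η) ^ (j + 1) * f r < f (r + (j + 1) * (r / M)) := by
    intro j
    induction j with
    | zero =>
      intro h1
      have h2 := hcon 0 (by omega)
      simpa using h2
    | succ j ih =>
      intro h1
      have h2 := ih (by omega)
      have h3 := hcon (j + 1) (by omega)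
      push_cast at h3 ⊢
      calc (1 + η) ^ (j + 1 + 1) * f r = (1 + η) * ((1 + η) ^ (j + 1) * f r) := by ring
        _ < (1 + η) * f (r + (j + 1) * (r / M)) := by
            apply mul_lt_mul_of_pos_left h2
            linarith
        _ < f (r + (j + 1 + 1) * (r / M)) := h3
  obtain ⟨k, rfl⟩ : ∃ k, M = k + 1 := ⟨M - 1, by omega⟩
  have h1 := key k le_rfl
  have h2 : r + ((k : ℝ) + 1) * (r / ((k + 1 : ℕ) : ℝ)) = 2 * r := by
    push_cast
    field_simp
    ring
  rw [h2] at h1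
  linarith

/-- `(1 + η) ^ M ≥ e ^ ℓ` for `M ≥ 2 ℓ / η` -/
theorem pow_ge (η ℓ : ℝ) (M : ℕ) (hη : 0 ≤ η) (hη1 : η ≤ 1) (hM : 2 * ℓ ≤ η * M) :
    Real.exp ℓ ≤ (1 + η) ^ M := by
  have h1 : Real.exp (η / 2) ≤ 1 + η := by
    have h2 := Real.exp_bound_div_one_sub_of_interval (by linarith : 0 ≤ η / 2) (by linarith : η / 2 < 1)
    refine h2.trans ?_
    rw [div_le_iff₀ (by linarith)]
    nlinarith
  calc Real.exp ℓ ≤ Real.exp (M * (η / 2)) := by
        apply Real.exp_le_exp.2
        linarith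
    _ = Real.exp (η / 2) ^ M := by rw [Real.exp_nat_mul]
    _ ≤ (1 + η) ^ M := pow_le_pow_left₀ (Real.exp_pos _).le h1 M

/-- a regular scale for the almost periods -/
theorem regP (B : Finset (ZMod N)) (r η ℓ : ℝ) (M : ℕ) (hM : 1 ≤ M) (hη : 0 ≤ η) (hη1 : η ≤ 1)
    (hMℓ : 2 * ℓ ≤ η * M) (hr : 0 ≤ r) (h : (N : ℝ) ≤ Real.exp ℓ * (PP B r).card) :
    ∃ s : ℝ, r ≤ s ∧ s ≤ 2 * r ∧ ((PP B (s + r / M)).card : ℝ) ≤ (1 + η) * (PP B s).card := by
  have hM0 : (0 : ℝ) < M := by exact_mod_cast hM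
  obtain ⟨j, hj, h1⟩ := reg (fun s => ((PP B s).card : ℝ)) r η M hM hη (by
    have h2 : ((PP B (2 * r)).card : ℝ) ≤ N := by
      have := card_le_univ (PP B (2 * r))
      rw [ZMod.card] at this
      exact_mod_cast this
    refine h2.trans (h.trans ?_)
    exact mul_le_mul_of_nonneg_right (pow_ge η ℓ M hη hη1 hMℓ) (Nat.cast_nonneg _))
  have hjM : (j : ℝ) ≤ M := by exact_mod_cast hj.le
  have hrM : 0 ≤ r / M := by positivity
  refine ⟨r + j * (r / M), ?_, ?_, ?_⟩
  · have : 0 ≤ (j : ℝ) * (r / M) := by positivity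
    linarith
  · have : (j : ℝ) * (r / M) ≤ M * (r / M) := mul_le_mul_of_nonneg_right hjM hrM
    rw [mul_div_cancel₀ _ hM0.ne'] at this
    linarith
  · have : r + (j : ℝ) * (r / M) + r / M = r + (j + 1) * (r / M) := by ring
    rw [this]
    exact h1

end Pool.Agent.U546.TS
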